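import Pool.Agent.H47.PD.Stm
import Pool.Agent.H47.PF.T.CHEB

/-! # Project PD, stub PD-BOX: the sieve (helper96) -/

set_option autoImplicit false

open Filter Topology Finset

namespace Pool.Agent.H47.PD.BOX

/-- infinitely many primes `≥ p₀` -/
lemma inf_primes (p₀ : ℕ) : {p : ℕ | p.Prime ∧ p₀ ≤ p}.Infinite := by
  refine Set.infinite_of_forall_exists_gt fun a => ?_
  obtain ⟨p, h1, h2⟩ := Nat.exists_infinite_primes (max (a + 1) p₀)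
  exact ⟨p, ⟨h2, (le_max_right _ _).trans h1⟩, (le_max_left _ _).trans h1⟩

/-- the bad vectors modulo the product of the primes of `S` -/
lemma bad_le (ι : Type) [Fintype ι] (B : ∀ p : ℕ, Set (ι → ZMod p)) (c : ℝ) (hc : 0 < c) (S : Finset ℕ)
    (hS : ∀ p ∈ S, p.Prime) (hcard : 0 < S.card)
    (hB : ∀ p ∈ S, c * (p : ℝ) ^ Fintype.card ι ≤ Nat.card (B p)) :
    (Nat.card {a : ι → Fin (∏ p ∈ S, p) // ∀ p ∈ S, (fun i => ((a i : ℕ) : ZMod p)) ∉ B p} : ℝ) *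
      (c ^ 2 * S.card) ≤ ((∏ p ∈ S, p : ℕ) : ℝ) ^ Fintype.card ι := by
  have h := Pool.Agent.H47.PF.CHEB.main S ι B c (c / 2) (by positivity) hS hB
  have h1 : Nat.card {a : ι → Fin (∏ p ∈ S, p) // ∀ p ∈ S, (fun i => ((a i : ℕ) : ZMod p)) ∉ B p} ≤
      Nat.card {a : ι → Fin (∏ p ∈ S, p) //
        (Nat.card {p : ℕ // p ∈ S ∧ (fun i => ((a i : ℕ) : ZMod p)) ∈ B p} : ℝ) < (c - c / 2) * S.card} := by
    refine Nat.card_le_card_of_injective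
      (fun a => ⟨a.1, ?_⟩) (fun a b hab => Subtype.ext (by simpa using hab))
    have h2 : Nat.card {p : ℕ // p ∈ S ∧ (fun i => ((a.1 i : ℕ) : ZMod p)) ∈ B p} = 0 := by
      rw [Nat.card_eq_zero]
      left
      exact ⟨fun p => a.2 p.1 p.2.1 p.2.2⟩
    rw [h2]
    have h3 : (0 : ℝ) < S.card := by exact_mod_cast hcard
    push_cast
    have : c - c / 2 = c / 2 := by ring
    rw [this]
    positivity
  have h3 : ((∏ p ∈ S, p : ℕ) : ℝ) = ∏ p ∈ S, (p : ℝ) := by push_cast; rfl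
  rw [h3]
  refine le_trans ?_ h
  have h4 : 4 * (c / 2) ^ 2 * (S.card : ℝ) = c ^ 2 * S.card := by ring
  rw [h4]
  exact mul_le_mul_of_nonneg_right (by exact_mod_cast h1) (by positivity)

/-- the covering -/
lemma cover (ι : Type) [Fintype ι] (B : ∀ p : ℕ, Set (ι → ZMod p)) (p₀ : ℕ) (S : Finset ℕ)
    (hS : ∀ p ∈ S, p.Prime) (hS' : ∀ p ∈ S, p₀ ≤ p) (H : ℕ) :
    Nat.card {a : ι → Fin H // ∀ p : ℕ, p.Prime → p₀ ≤ p → (fun i => ((a i : ℕ) : ZMod p)) ∉ B p} ≤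
      Nat.card {a : ι → Fin (∏ p ∈ S, p) // ∀ p ∈ S, (fun i => ((a i : ℕ) : ZMod p)) ∉ B p} *
        (H / (∏ p ∈ S, p) + 1) ^ Fintype.card ι := by
  obtain ⟨N, hN⟩ : ∃ N, N = ∏ p ∈ S, p := ⟨_, rfl⟩
  have hN0 : 0 < N := by
    rw [hN]
    exact Finset.prod_pos fun p hp => (hS p hp).pos
  have hdvd : ∀ p ∈ S, p ∣ N := fun p hp => by rw [hN]; exact Finset.dvd_prod_of_mem _ hp
  rw [← hN]
  have h1 : (H / N + 1) ^ Fintype.card ι = Nat.card (ι → Fin (H / N + 1)) := by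
    rw [Nat.card_fun, Nat.card_eq_fintype_card, Fintype.card_fin, Nat.card_eq_fintype_card]
  rw [h1, ← Nat.card_prod]
  refine Nat.card_le_card_of_injective (fun a => (⟨fun i => ⟨(a.1 i : ℕ) % N, Nat.mod_lt _ hN0⟩, ?_⟩,
    fun i => ⟨(a.1 i : ℕ) / N, ?_⟩)) ?_
  · intro p hp
    have h2 := a.2 p (hS p hp) (hS' p hp)
    have h3 : (fun i => (((⟨(a.1 i : ℕ) % N, Nat.mod_lt _ hN0⟩ : Fin N) : ℕ) : ZMod p)) =
        fun i => ((a.1 i : ℕ) : ZMod p) := by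
      funext i
      exact (ZMod.natCast_eq_natCast_iff _ _ _).2 ((Nat.mod_modEq _ _).of_dvd (hdvd p hp))
    rw [h3]
    exact h2
  · have h2 : (a.1 i : ℕ) / N ≤ H / N := Nat.div_le_div_right (a.1 i).2.le
    omega
  · intro a b hab
    rw [Prod.mk.injEq] at hab
    obtain ⟨h2, h3⟩ := hab
    rw [Subtype.mk.injEq] at h2
    apply Subtype.ext
    funext i
    have h4 := congrArg (fun (x : Fin N) => (x : ℕ)) (congrFun h2 i)
    have h5 := congrArg (fun (x : Fin (H / N + 1)) => (x : ℕ)) (congrFun h3 i)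
    simp only at h4 h5
    apply Fin.ext
    rw [← Nat.div_add_mod (a.1 i : ℕ) N, ← Nat.div_add_mod (b.1 i : ℕ) N, h4, h5]

theorem main : S_BOX := by
  intro ι _ B c p₀ hc hB
  obtain ⟨d, hd⟩ : ∃ d, d = Fintype.card ι := ⟨_, rfl⟩
  rw [Metric.tendsto_atTop]
  intro ε hε
  obtain ⟨n, hn⟩ := exists_nat_gt ((2 : ℝ) ^ d / (c ^ 2 * ε))
  obtain ⟨S, hSsub, hScard⟩ := (inf_primes p₀).exists_subset_card_eq (n + 1)
  have hS : ∀ p ∈ S, p.Prime := fun p hp => (hSsub hp).1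
  have hS' : ∀ p ∈ S, p₀ ≤ p := fun p hp => (hSsub hp).2
  have hbad := bad_le ι B c hc S hS (by omega) (fun p hp => hB p (hS p hp) (hS' p hp))
  obtain ⟨N, hN⟩ : ∃ N, N = ∏ p ∈ S, p := ⟨_, rfl⟩
  have hN0 : 0 < N := by
    rw [hN]
    exact Finset.prod_pos fun p hp => (hS p hp).pos
  rw [← hN, ← hd, hScard] at hbad
  refine ⟨N, fun H hH => ?_⟩
  have hcov := cover ι B p₀ S hS hS' H
  rw [← hN, ← hd] at hcov
  rw [← hd]
  have hH0 : 0 < H := lt_of_lt_of_le hN0 hH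
  have hHr : (0 : ℝ) < H := by exact_mod_cast hH0
  have hNr : (0 : ℝ) < N := by exact_mod_cast hN0
  have hHN : (N : ℝ) ≤ H := by exact_mod_cast hH
  rw [Real.dist_eq, sub_zero, abs_of_nonneg (by positivity), div_lt_iff₀ (by positivity)]
  obtain ⟨b, hb⟩ : ∃ b : ℕ, b = Nat.card {a : ι → Fin N // ∀ p ∈ S, (fun i => ((a i : ℕ) : ZMod p)) ∉ B p} :=
    ⟨_, rfl⟩
  obtain ⟨A, hA⟩ : ∃ A : ℕ, A = Nat.card {a : ι → Fin H // ∀ p : ℕ, p.Prime → p₀ ≤ p →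
    (fun i => ((a i : ℕ) : ZMod p)) ∉ B p} := ⟨_, rfl⟩
  rw [← hb] at hbad hcov
  rw [← hA] at hcov ⊢
  have h1 : (A : ℝ) ≤ b * ((H / N : ℕ) + 1 : ℝ) ^ d := by exact_mod_cast hcov
  have h2 : ((H / N : ℕ) + 1 : ℝ) ≤ 2 * H / N := by
    have h3 : ((H / N : ℕ) : ℝ) ≤ (H : ℝ) / N := Nat.cast_div_le
    have h4 : (1 : ℝ) ≤ (H : ℝ) / N := (one_le_div hNr).2 hHN
    have h5 : 2 * (H : ℝ) / N = H / N + H / N := by ring
    rw [h5]
    linarith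
  have h3 : ((H / N : ℕ) + 1 : ℝ) ^ d ≤ (2 * H / N) ^ d := pow_le_pow_left₀ (by positivity) h2 d
  have h4 : (A : ℝ) * (c ^ 2 * (n + 1)) ≤ (2 : ℝ) ^ d * (H : ℝ) ^ d := by
    calc (A : ℝ) * (c ^ 2 * (n + 1)) ≤ (b * (2 * H / N) ^ d) * (c ^ 2 * (n + 1)) :=
          mul_le_mul_of_nonneg_right (h1.trans (mul_le_mul_of_nonneg_left h3 (Nat.cast_nonneg _))) (by positivity)
      _ = (b * (c ^ 2 * ((n + 1 : ℕ) : ℝ))) * (2 * H / N) ^ d := by push_cast; ring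
      _ ≤ (N : ℝ) ^ d * (2 * H / N) ^ d := mul_le_mul_of_nonneg_right hbad (by positivity)
      _ = (2 : ℝ) ^ d * (H : ℝ) ^ d := by
          rw [← mul_pow, ← mul_pow]
          congr 1
          field_simp
  rw [div_lt_iff₀ (by positivity)] at hn
  have h5 : (2 : ℝ) ^ d < ε * (c ^ 2 * (n + 1)) := by nlinarith [mul_pos (pow_pos hc 2) hε]
  have h6 : (0 : ℝ) < c ^ 2 * (n + 1) := by positivity
  have h7 : (A : ℝ) * (c ^ 2 * (n + 1)) < (ε * (H : ℝ) ^ d) * (c ^ 2 * (n + 1)) := by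
    refine lt_of_le_of_lt h4 ?_
    have h8 := mul_lt_mul_of_pos_right h5 (show (0 : ℝ) < (H : ℝ) ^ d by positivity)
    calc (2 : ℝ) ^ d * (H : ℝ) ^ d < ε * (c ^ 2 * (n + 1)) * (H : ℝ) ^ d := h8
      _ = _ := by ring
  exact lt_of_mul_lt_mul_right h7 h6.le

end Pool.Agent.H47.PD.BOX
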