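import Pool.Agent.H47.PD.Stm

set_option autoImplicit false

namespace Pool.Agent.H47.PD.BURN

theorem main : S_BURN := by
  classical
  intro G X _ _ _ _ a htr
  have := Fintype.ofFinite G
  have := Fintype.ofFinite X
  let _ : MulAction G X := MulAction.compHom X a
  have hsmul : ∀ (σ : G) (x : X), σ • x = a σ x := fun σ x => rfl
  have h1 := MulAction.sum_card_fixedBy_eq_card_orbits_mul_card_group G X
  have h2 : Fintype.card (Quotient (MulAction.orbitRel G X)) = 1 := by
    rw [Fintype.card_eq_one_iff]
    obtain ⟨x₀⟩ := (inferInstance : Nonempty X)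
    refine ⟨Quotient.mk _ x₀, fun y => ?_⟩
    induction y using Quotient.inductionOn with
    | h y =>
      refine Quotient.sound ?_
      obtain ⟨σ, hσ⟩ := htr x₀ y
      exact ⟨σ, hσ⟩
  rw [h2, one_mul] at h1
  have h3 : ∀ σ : G, Fintype.card (MulAction.fixedBy X σ) ≤
      if ∃ x : X, a σ x = x then Fintype.card X else 0 := by
    intro σ
    split_ifs with h
    · exact Fintype.card_subtype_le _
    · rw [Nat.le_zero, Fintype.card_eq_zero_iff]
      exact ⟨fun x => h ⟨x.1, x.2⟩⟩
  rw [Nat.card_eq_fintype_card, ← h1, Nat.card_eq_fintype_card, Nat.card_eq_fintype_card]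
  calc ∑ σ : G, Fintype.card (MulAction.fixedBy X σ)
      ≤ ∑ σ : G, if ∃ x : X, a σ x = x then Fintype.card X else 0 :=
        Finset.sum_le_sum fun σ _ => h3 σ
    _ = Fintype.card X * Fintype.card {σ : G // ∃ x : X, a σ x = x} := by
        rw [← Finset.sum_filter, Finset.sum_const, smul_eq_mul, Fintype.card_subtype, mul_comm]

end Pool.Agent.H47.PD.BURN
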