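import Pool.Agent.H47.PD.Stm

set_option autoImplicit false

/-! # Project PD, stub CHARP (helper19) -/

namespace Pool.Agent.H47.PD.CHARP

open Matrix Polynomial Pool.Agent.H47.PD

variable {F : Type} [Field F] {I : Type} [Fintype I] [DecidableEq I]

omit [DecidableEq I] in
theorem altn_zero {B : Matrix I I F} (h0 : ∀ u, B u u = 0) (h1 : Bᵀ = -B) (x : I → F) :
    x ⬝ᵥ (B *ᵥ x) = 0 := by
  have h : x ⬝ᵥ (B *ᵥ x) = ∑ p : I × I, x p.1 * (B p.1 p.2 * x p.2) := by
    simp only [dotProduct, mulVec, Finset.mul_sum, Fintype.sum_prod_type]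
  have h2 : ∀ u v, B u v = -B v u := by
    intro u v
    have := congrFun (congrFun h1 v) u
    rw [Matrix.transpose_apply, Matrix.neg_apply] at this
    exact this
  rw [h]
  refine Finset.sum_involution (fun p _ => (p.2, p.1)) ?_ ?_ ?_ ?_
  · intro p _
    show x p.1 * (B p.1 p.2 * x p.2) + x p.2 * (B p.2 p.1 * x p.1) = 0
    rw [h2 p.1 p.2]
    ring
  · intro p _ hp hpp
    apply hp
    have h1 : p.2 = p.1 := congrArg Prod.fst hpp
    rw [h1, h0]
    ring
  · intro p _
    exact Finset.mem_univ _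
  · intro p _
    rfl

theorem trE {E A : Matrix I I F} (hE : Eᵀ = -E) (hA : Aᵀ = -A) (hu : IsUnit E.det) :
    (E⁻¹ * A)ᵀ * E = A := by
  rw [Matrix.transpose_mul, Matrix.transpose_nonsing_inv, hE, hA]
  have h2 : (-E)⁻¹ = -E⁻¹ := by
    rw [show (-E) = (-1 : F) • E by simp]
    apply Matrix.inv_eq_right_inv
    simp [Matrix.mul_nonsing_inv _ hu]
  rw [h2, neg_mul_neg, Matrix.mul_assoc, Matrix.nonsing_inv_mul _ hu, Matrix.mul_one]

theorem pow_adj {E M : Matrix I I F} (h : Mᵀ * E = E * M) (n : ℕ) :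
    (M ^ n)ᵀ * E = E * M ^ n := by
  induction n with
  | zero => simp
  | succ n ih =>
    rw [pow_succ, Matrix.transpose_mul, Matrix.mul_assoc, ih, ← Matrix.mul_assoc, h, Matrix.mul_assoc,
      ← pow_succ', ← pow_succ]

/-- the isotropy -/
theorem iso {E A : Matrix I I F} (hE0 : ∀ u, E u u = 0) (hE : Eᵀ = -E) (hA0 : ∀ u, A u u = 0)
    (hA : Aᵀ = -A) (hu : IsUnit E.det) (e : I → F) (i j : ℕ) :
    (((E⁻¹ * A) ^ i) *ᵥ e) ⬝ᵥ (E *ᵥ (((E⁻¹ * A) ^ j) *ᵥ e)) = 0 := by
  obtain ⟨M, hM⟩ : ∃ M : Matrix I I F, M = E⁻¹ * A := ⟨_, rfl⟩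
  rw [← hM]
  have hEM : E * M = A := by
    rw [hM, ← Matrix.mul_assoc, Matrix.mul_nonsing_inv _ hu, Matrix.one_mul]
  have hME : Mᵀ * E = E * M := by
    rw [hEM, hM]; exact trE hE hA hu
  have adj : ∀ (n : ℕ) (x y : I → F), ((M ^ n) *ᵥ x) ⬝ᵥ (E *ᵥ y) = x ⬝ᵥ (E *ᵥ ((M ^ n) *ᵥ y)) := by
    intro n x y
    rw [Matrix.mulVec_mulVec, ← pow_adj hME n, ← Matrix.mulVec_mulVec, ← Matrix.vecMul_transpose,
      ← Matrix.dotProduct_mulVec]
  have key : ∀ n : ℕ, e ⬝ᵥ (E *ᵥ (M ^ n *ᵥ e)) = 0 := by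
    intro n
    rcases Nat.even_or_odd n with ⟨m, hm⟩ | ⟨m, hm⟩
    · rw [hm, pow_add, ← Matrix.mulVec_mulVec, ← adj m e (M ^ m *ᵥ e)]
      exact altn_zero hE0 hE _
    · have h3 : M ^ n = M ^ m * (M * M ^ m) := by
        rw [hm, ← pow_succ', ← pow_add]
        congr 1
        ring
      rw [h3, ← Matrix.mulVec_mulVec, ← adj m e ((M * M ^ m) *ᵥ e),
        ← Matrix.mulVec_mulVec, Matrix.mulVec_mulVec _ E M, hEM]
      exact altn_zero hA0 hA _
  have h4 : M ^ i *ᵥ (M ^ j *ᵥ e) = M ^ (i + j) *ᵥ e := by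
    rw [Matrix.mulVec_mulVec, ← pow_add]
  rw [adj i, h4]
  exact key (i + j)

/-- the companion matrix -/
def comp {g : ℕ} (c : Fin g → F) : Matrix (Fin g) (Fin g) F :=
  Matrix.of fun i j => if (j : ℕ) + 1 = g then -c i else if (i : ℕ) = j + 1 then 1 else 0

/-- the matrix of the vectors -/
def vm (M : Matrix I I F) (e : I → F) (g : ℕ) : Matrix I (Fin g) F :=
  Matrix.of fun u j => ((M ^ (j : ℕ)) *ᵥ e) u

theorem vm_comp {M : Matrix I I F} {e : I → F} {g : ℕ} {c : Fin g → F}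
    (h : (M ^ g) *ᵥ e = -∑ j : Fin g, c j • ((M ^ (j : ℕ)) *ᵥ e)) :
    M * vm M e g = vm M e g * comp c := by
  ext u j
  have h1 : (M * vm M e g) u j = ((M ^ ((j : ℕ) + 1)) *ᵥ e) u := by
    rw [pow_succ', ← Matrix.mulVec_mulVec]
    rfl
  rw [h1, Matrix.mul_apply]
  by_cases hj : (j : ℕ) + 1 = g
  · have h2 : ∀ i : Fin g, vm M e g u i * comp c i j = -(c i * ((M ^ (i : ℕ)) *ᵥ e) u) := by
      intro i
      simp only [vm, comp, Matrix.of_apply, if_pos hj]
      ring
    rw [Finset.sum_congr rfl fun i _ => h2 i, hj, h, Finset.sum_neg_distrib, Pi.neg_apply,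
      Finset.sum_apply]
    rfl
  · have hj' : (j : ℕ) + 1 < g := by omega
    rw [Finset.sum_eq_single (⟨(j : ℕ) + 1, hj'⟩ : Fin g)]
    · simp only [vm, comp, Matrix.of_apply, if_neg hj, if_true, mul_one]
    · intro i _ hi
      have : (i : ℕ) ≠ (j : ℕ) + 1 := fun h => hi (Fin.ext h)
      simp only [comp, Matrix.of_apply, if_neg hj, if_neg this, mul_zero]
    · intro h
      exact absurd (Finset.mem_univ _) h

theorem charpoly_comp {M : Matrix I I F} {e : I → F} {g : ℕ} {c : Fin g → F}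
    (hli : LinearIndependent F (fun j : Fin g => (M ^ (j : ℕ)) *ᵥ e))
    (h : (M ^ g) *ᵥ e = -∑ j : Fin g, c j • ((M ^ (j : ℕ)) *ᵥ e)) :
    (comp c).charpoly = X ^ g + ∑ j : Fin g, C (c j) * X ^ (j : ℕ) := by
  obtain ⟨K, hK⟩ : ∃ K : Matrix (Fin g) (Fin g) F, K = comp c := ⟨_, rfl⟩
  have hMK : M * vm M e g = vm M e g * K := by rw [hK]; exact vm_comp h
  rw [← hK]
  have hpow : ∀ n : ℕ, M ^ n * vm M e g = vm M e g * K ^ n := by
    intro n
    induction n with
    | zero => simp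
    | succ n ih => rw [pow_succ', Matrix.mul_assoc, ih, ← Matrix.mul_assoc, hMK, Matrix.mul_assoc,
        ← pow_succ']
  have hdeg : K.charpoly.natDegree = g := by
    rw [Matrix.charpoly_natDegree_eq_dim, Fintype.card_fin]
  have hsum := (Matrix.charpoly_monic K).as_sum
  rw [hdeg] at hsum
  have hcoef : ∀ j : Fin g, K.charpoly.coeff j = c j := by
    rcases Nat.eq_zero_or_pos g with hg | hg
    · intro j; exact absurd j.2 (by omega)
    · have h0 := Matrix.aeval_self_charpoly K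
      rw [hsum, ← Fin.sum_univ_eq_sum_range (fun i => C (K.charpoly.coeff i) * X ^ i) g] at h0
      simp only [map_add, map_pow, aeval_X, map_sum, map_mul, aeval_C] at h0
      have h1 : vm M e g * (K ^ g + ∑ i : Fin g, algebraMap F (Matrix (Fin g) (Fin g) F)
          (K.charpoly.coeff i) * K ^ (i : ℕ)) = 0 := by rw [h0, Matrix.mul_zero]
      have h2 : ∀ i : Fin g, vm M e g * (algebraMap F (Matrix (Fin g) (Fin g) F)
          (K.charpoly.coeff i) * K ^ (i : ℕ)) = K.charpoly.coeff i • (M ^ (i : ℕ) * vm M e g) := by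
        intro i
        rw [hpow, Algebra.algebraMap_eq_smul_one, Matrix.smul_mul, Matrix.one_mul, Matrix.mul_smul]
      rw [Matrix.mul_add, ← hpow, Matrix.mul_sum, Finset.sum_congr rfl fun i _ => h2 i] at h1
      have h3 : ∀ (n : ℕ) (u : I), (M ^ n * vm M e g) u ⟨0, hg⟩ = ((M ^ n) *ᵥ e) u := by
        intro n u
        have : (M ^ n * vm M e g) u ⟨0, hg⟩ = ((M ^ n) *ᵥ ((M ^ 0) *ᵥ e)) u := rfl
        rw [this, pow_zero, Matrix.one_mulVec]
      have h4 : (M ^ g) *ᵥ e + ∑ i : Fin g, K.charpoly.coeff i • ((M ^ (i : ℕ)) *ᵥ e) = 0 := by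
        funext u
        have := congrFun (congrFun h1 u) ⟨0, hg⟩
        rw [Matrix.add_apply, Matrix.sum_apply, h3] at this
        simp only [Matrix.smul_apply, h3, Matrix.zero_apply] at this
        rw [Pi.add_apply, Finset.sum_apply]
        simpa only [Pi.smul_apply, Pi.zero_apply] using this
      rw [h, neg_add_eq_sub, ← Finset.sum_sub_distrib] at h4
      have h5 := Fintype.linearIndependent_iff.1 hli (fun j => K.charpoly.coeff j - c j) (by
        rw [← h4]
        refine Finset.sum_congr rfl fun i _ => ?_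
        rw [sub_smul])
      intro j
      exact sub_eq_zero.1 (h5 j)
  rw [hsum, ← Fin.sum_univ_eq_sum_range (fun i => C (K.charpoly.coeff i) * X ^ i) g]
  congr 1
  refine Finset.sum_congr rfl fun i _ => ?_
  rw [hcoef i]

theorem blk {g : ℕ} {R : Type} [CommRing R] (S T D : Matrix (Fin g) (Fin g) R) :
    (fromBlocks 0 S T D).det *
      (fromBlocks (0 : Matrix (Fin g) (Fin g) R) (1 : Matrix (Fin g) (Fin g) R)
        (1 : Matrix (Fin g) (Fin g) R) (0 : Matrix (Fin g) (Fin g) R)).det =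
      S.det * T.det := by
  rw [← Matrix.det_mul, Matrix.fromBlocks_multiply]
  simp only [Matrix.mul_zero, Matrix.mul_one, zero_add, add_zero]
  rw [Matrix.det_fromBlocks_zero₁₂]

theorem swap_sq {g : ℕ} {R : Type} [CommRing R] :
    (fromBlocks (0 : Matrix (Fin g) (Fin g) R) (1 : Matrix (Fin g) (Fin g) R)
        (1 : Matrix (Fin g) (Fin g) R) (0 : Matrix (Fin g) (Fin g) R)).det *
      (fromBlocks (0 : Matrix (Fin g) (Fin g) R) (1 : Matrix (Fin g) (Fin g) R)
        (1 : Matrix (Fin g) (Fin g) R) (0 : Matrix (Fin g) (Fin g) R)).det = 1 := by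
  rw [blk, Matrix.det_one, one_mul]

/-- extension to a basis -/
theorem ext {g : ℕ} {v : Fin g → (I → F)} (hli : LinearIndependent F v)
    (hcard : Fintype.card I = 2 * g) :
    ∃ (U : Matrix I (Fin g) F) (σ : I ≃ Fin g ⊕ Fin g),
      ((Matrix.fromCols (Matrix.of fun u j => v j u) U).submatrix id σ).det ≠ 0 := by
  obtain ⟨W', hW'⟩ := Submodule.exists_isCompl (Submodule.span F (Set.range v))
  have h1 : Module.finrank F W' = g := by
    have h2 := Submodule.finrank_add_eq_of_isCompl hW'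
    rw [finrank_span_eq_card hli, Fintype.card_fin, Module.finrank_pi, hcard] at h2
    omega
  let b := Module.finBasisOfFinrankEq F W' h1
  have h3 : LinearIndependent F (fun j => (b j : I → F)) :=
    b.linearIndependent.map' W'.subtype (Submodule.ker_subtype W')
  have h4 : LinearIndependent F (Sum.elim v (fun j => (b j : I → F))) := by
    refine hli.sum_type h3 ?_
    refine hW'.disjoint.mono_right ?_
    rw [Submodule.span_le]
    rintro _ ⟨j, rfl⟩
    exact (b j).2
  have hc : Fintype.card I = Fintype.card (Fin g ⊕ Fin g) := by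
    rw [hcard, Fintype.card_sum, Fintype.card_fin]
    omega
  obtain ⟨σ⟩ : Nonempty (I ≃ Fin g ⊕ Fin g) := ⟨Fintype.equivOfCardEq hc⟩
  refine ⟨Matrix.of fun u j => (b j : I → F) u, σ, ?_⟩
  have h5 : LinearIndependent F (((Matrix.fromCols (Matrix.of fun u j => v j u)
      (Matrix.of fun u j => (b j : I → F) u)).submatrix id σ).col) := by
    have h6 := h4.comp σ σ.injective
    convert h6 using 1
    funext i u
    simp only [Matrix.col_apply, Matrix.submatrix_apply, id_eq, Function.comp_apply]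
    rcases σ i with j | j
    · rfl
    · rfl
  rw [Matrix.linearIndependent_cols_iff_isUnit, Matrix.isUnit_iff_isUnit_det] at h5
  exact h5.ne_zero

theorem main : S_CHARP := by
  intro F _ I _ _ E A e g c hE0 hE hA0 hA hu hcard hli hrel
  obtain ⟨M, hM⟩ : ∃ M : Matrix I I F, M = E⁻¹ * A := ⟨_, rfl⟩
  have hiso := iso hE0 hE hA0 hA hu e
  rw [← hM] at hli hrel hiso
  have hEM : E * M = A := by
    rw [hM, ← Matrix.mul_assoc, Matrix.mul_nonsing_inv _ hu, Matrix.one_mul]
  have hME : Mᵀ * E = A := by rw [hM]; exact trE hE hA hu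
  obtain ⟨U, σ, hU⟩ := ext hli hcard
  obtain ⟨V, hV⟩ : ∃ V : Matrix I (Fin g) F, V = vm M e g := ⟨_, rfl⟩
  have hV' : (Matrix.of fun u (j : Fin g) => ((M ^ (j : ℕ)) *ᵥ e) u) = V := by rw [hV]; rfl
  rw [hV'] at hU
  obtain ⟨K, hK⟩ : ∃ K : Matrix (Fin g) (Fin g) F, K = comp c := ⟨_, rfl⟩
  have hMV : M * V = V * K := by rw [hV, hK]; exact vm_comp hrel
  have hchar := charpoly_comp hli hrel
  rw [← hK] at hchar
  have hVEV : Vᵀ * E * V = 0 := by
    ext i j
    have : (Vᵀ * E * V) i j = (((M ^ (i : ℕ)) *ᵥ e) ⬝ᵥ (E *ᵥ ((M ^ (j : ℕ)) *ᵥ e))) := by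
      rw [Matrix.mul_assoc, hV]
      rfl
    rw [this, hiso, Matrix.zero_apply]
  obtain ⟨B, hB⟩ : ∃ B : Matrix (Fin g) (Fin g) F, B = Vᵀ * E * U := ⟨_, rfl⟩
  have hUEV : Uᵀ * E * V = -Bᵀ := by
    rw [hB, Matrix.transpose_mul, Matrix.transpose_mul, Matrix.transpose_transpose, hE,
      ← Matrix.mul_assoc]
    simp only [Matrix.mul_neg, Matrix.neg_mul, neg_neg]
  have hVAV : Vᵀ * A * V = 0 := by
    rw [← hEM, Matrix.mul_assoc, Matrix.mul_assoc, hMV, ← Matrix.mul_assoc, ← Matrix.mul_assoc,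
      hVEV, Matrix.zero_mul]
  have hVAU : Vᵀ * A * U = Kᵀ * B := by
    rw [← hME, ← Matrix.mul_assoc, ← Matrix.transpose_mul, hMV, Matrix.transpose_mul, hB]
    simp only [Matrix.mul_assoc]
  have hUAV : Uᵀ * A * V = -(Bᵀ * K) := by
    rw [← hEM, Matrix.mul_assoc, Matrix.mul_assoc, hMV, ← Matrix.mul_assoc, ← Matrix.mul_assoc,
      hUEV, Matrix.neg_mul]
  obtain ⟨P, hP⟩ : ∃ P : Matrix I (Fin g ⊕ Fin g) F, P = Matrix.fromCols V U := ⟨_, rfl⟩
  rw [← hP] at hU
  have hPEP : Pᵀ * E * P = fromBlocks 0 B (-Bᵀ) (Uᵀ * E * U) := by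
    rw [hP, Matrix.transpose_fromCols, Matrix.fromRows_mul, Matrix.fromRows_mul_fromCols, hVEV, hUEV,
      ← hB]
  have hPAP : Pᵀ * A * P = fromBlocks 0 (Kᵀ * B) (-(Bᵀ * K)) (Uᵀ * A * U) := by
    rw [hP, Matrix.transpose_fromCols, Matrix.fromRows_mul, Matrix.fromRows_mul_fromCols, hVAV, hUAV,
      hVAU]
  -- determinants
  have hdet : ∀ Q : Matrix I I F[X], (C (P.submatrix id σ).det) ^ 2 * Q.det =
      ((P.map C)ᵀ * Q * P.map C).det := by
    intro Q
    have h1 : ((P.map C)ᵀ * Q * P.map C).submatrix σ σ =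
        (((P.submatrix id σ).map C)ᵀ * Q * (P.submatrix id σ).map C) := by
      ext i j
      simp only [Matrix.submatrix_apply, Matrix.mul_apply, Matrix.transpose_apply, Matrix.map_apply,
        id_eq]
    rw [← Matrix.det_submatrix_equiv_self σ, h1, Matrix.det_mul, Matrix.det_mul,
      Matrix.det_transpose]
    have h2 : ((P.submatrix id σ).map C).det = C (P.submatrix id σ).det :=
      (RingHom.map_det C _).symm
    rw [h2]
    ring
  have hmapc : ∀ Q : Matrix I I F, (P.map C)ᵀ * Q.map C * P.map C = (Pᵀ * Q * P).map C := by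
    intro Q
    rw [Matrix.map_mul, Matrix.map_mul, Matrix.transpose_map]
  obtain ⟨s, hs⟩ : ∃ s : F[X], s = (fromBlocks (0 : Matrix (Fin g) (Fin g) F[X])
    (1 : Matrix (Fin g) (Fin g) F[X]) (1 : Matrix (Fin g) (Fin g) F[X])
    (0 : Matrix (Fin g) (Fin g) F[X])).det := ⟨_, rfl⟩
  have hs2 : s * s = 1 := by rw [hs]; exact swap_sq
  obtain ⟨b, hb⟩ : ∃ b : F[X], b = (B.map C).det := ⟨_, rfl⟩
  have hneg : ∀ Z : Matrix (Fin g) (Fin g) F, (-Z).map C = -(Z.map C) := by
    intro Z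
    ext i j
    simp
  have h1 : (C (P.submatrix id σ).det) ^ 2 * C E.det * s = b * ((-1) ^ g * b) := by
    have e1 : C E.det = (E.map C).det := RingHom.map_det C E
    rw [e1, hdet, hmapc, hPEP, Matrix.fromBlocks_map, hs]
    have e2 : (0 : Matrix (Fin g) (Fin g) F).map C = 0 := by simp
    have e3 : (-Bᵀ).map C = -(B.map C)ᵀ := by
      ext i j
      simp
    rw [e2, e3, blk, Matrix.det_neg, Matrix.det_transpose, hb, Fintype.card_fin]
  have h2 : (C (P.submatrix id σ).det) ^ 2 * ((X : F[X]) • E.map C - A.map C).det * s =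
      (K.charpoly * b) * ((-1) ^ g * (b * K.charpoly)) := by
    rw [hdet]
    have e0 : (P.map C)ᵀ * ((X : F[X]) • E.map C - A.map C) * P.map C =
        fromBlocks 0 ((K.charmatrix)ᵀ * B.map C) (-((B.map C)ᵀ * K.charmatrix))
          ((X : F[X]) • (Uᵀ * E * U).map C - (Uᵀ * A * U).map C) := by
      rw [Matrix.mul_sub, Matrix.sub_mul, Matrix.mul_smul, Matrix.smul_mul, hmapc, hmapc, hPEP, hPAP,
        Matrix.fromBlocks_map, Matrix.fromBlocks_map, Matrix.fromBlocks_smul]
      have e4 : ∀ a b c d a' b' c' d' : Matrix (Fin g) (Fin g) F[X],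
          fromBlocks a b c d - fromBlocks a' b' c' d' = fromBlocks (a - a') (b - b') (c - c') (d - d') := by
        intro a b c d a' b' c' d'
        ext i j
        rcases i with i | i <;> rcases j with j | j <;> rfl
      rw [e4]
      have e5 : K.charmatrix = (X : F[X]) • (1 : Matrix (Fin g) (Fin g) F[X]) - K.map C := by
        unfold Matrix.charmatrix
        rw [Matrix.smul_one_eq_diagonal]
        rfl
      congr 1
      · simp
      · rw [e5, Matrix.transpose_sub, Matrix.sub_mul, Matrix.transpose_smul, Matrix.transpose_one,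
          Matrix.smul_mul, Matrix.one_mul, Matrix.map_mul, Matrix.transpose_map]
      · rw [e5, Matrix.mul_sub, Matrix.mul_smul, Matrix.mul_one]
        have e6 : (-Bᵀ).map C = -(B.map C)ᵀ := by
          ext i j
          simp
        have e7 : (-(Bᵀ * K)).map C = -((B.map C)ᵀ * K.map C) := by
          have e8 : (B.map C)ᵀ * K.map C = (Bᵀ * K).map C := by
            rw [Matrix.map_mul, Matrix.transpose_map]
          rw [e8]
          exact hneg _
        rw [e6, e7, smul_neg]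
        abel
    rw [e0, hs, blk, Matrix.det_mul, Matrix.det_neg, Matrix.det_mul, Matrix.det_transpose,
      Matrix.det_transpose, hb, Fintype.card_fin]
    rfl
  have hp : (C (P.submatrix id σ).det) ^ 2 * s ≠ 0 := by
    refine mul_ne_zero (pow_ne_zero _ (by rwa [Ne, C_eq_zero])) ?_
    intro h0
    rw [h0, mul_zero] at hs2
    exact zero_ne_one hs2
  refine mul_left_cancel₀ hp ?_
  rw [← hchar]
  calc (C (P.submatrix id σ).det) ^ 2 * s * ((X : F[X]) • E.map C - A.map C).det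
      = (C (P.submatrix id σ).det) ^ 2 * ((X : F[X]) • E.map C - A.map C).det * s := by ring
    _ = (b * ((-1) ^ g * b)) * K.charpoly ^ 2 := by rw [h2]; ring
    _ = (C (P.submatrix id σ).det) ^ 2 * s * (C E.det * K.charpoly ^ 2) := by rw [← h1]; ring

end Pool.Agent.H47.PD.CHARP
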