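import Pool.Agent.H47.PD.Stm

/-!
# Frobenius elements which are cycles (stub PD-CYCLE)
-/

set_option autoImplicit false

open Polynomial NumberField

namespace Pool.Agent.H47.PD.CYCLE

/-- the roots of an irreducible polynomial over the field with `p` elements are conjugate under Frobenius -/
theorem conj_roots (p : ℕ) [Fact p.Prime] (q : (ZMod p)[X]) (hq : Irreducible q)
    {α β : AlgebraicClosure (ZMod p)} (hα : aeval α q = 0) (hβ : aeval β q = 0) :
    ∃ i : ℕ, α ^ (p ^ i) = β := by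
  have hαi : IsIntegral (ZMod p) α := Algebra.IsIntegral.isIntegral α
  have h1 : minpoly (ZMod p) α ∣ q := minpoly.dvd _ _ hα
  have h2 : Associated (minpoly (ZMod p) α) q :=
    (minpoly.irreducible hαi).associated_of_dvd hq h1
  have h3 : aeval β (minpoly (ZMod p) α) = 0 := by
    obtain ⟨c, hc⟩ := h2.symm.dvd
    rw [hc, map_mul, hβ, zero_mul]
  obtain ⟨τ, hτ⟩ := minpoly.exists_algEquiv_of_root' (K := ZMod p) hαi.isAlgebraic h3
  let E : IntermediateField (ZMod p) (AlgebraicClosure (ZMod p)) :=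
    IntermediateField.adjoin (ZMod p) {α}
  have hfd : FiniteDimensional (ZMod p) E := IntermediateField.adjoin.finiteDimensional hαi
  have hfin : Finite E := Module.finite_of_finite (ZMod p)
  obtain ⟨i, hi⟩ := (FiniteField.bijective_frobeniusAlgEquivOfAlgebraic_pow (ZMod p) E).2
    (τ.restrictNormal E)
  have hαE : α ∈ E := IntermediateField.mem_adjoin_simple_self _ α
  refine ⟨i, ?_⟩
  rw [← hτ]
  have h4 := AlgEquiv.restrictNormal_commutes τ E ⟨α, hαE⟩
  have h5 : (algebraMap E (AlgebraicClosure (ZMod p))) ⟨α, hαE⟩ = α := rfl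
  rw [h5] at h4
  rw [← h4, ← hi]
  have h6 : ((FiniteField.frobeniusAlgEquivOfAlgebraic (ZMod p) E ^ (i : ℕ) : Gal(E/ZMod p)))
      ⟨α, hαE⟩ = (⟨α, hαE⟩ : E) ^ (p ^ (i : ℕ)) := by
    rw [AlgEquiv.coe_pow, FiniteField.coe_frobeniusAlgEquivOfAlgebraic_iterate, ZMod.card]
  show _ = (algebraMap E (AlgebraicClosure (ZMod p)))
    ((FiniteField.frobeniusAlgEquivOfAlgebraic (ZMod p) E ^ (i : ℕ) : Gal(E/ZMod p)) ⟨α, hαE⟩)
  rw [h6, map_pow]
  rfl

/-- a polynomial of the type `Pat n` is separable -/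
theorem pat_sep (p : ℕ) [Fact p.Prime] (n : ℕ) (hn : 2 ≤ n) (u : ZMod p) (q : (ZMod p)[X])
    (R : Finset (ZMod p)) (hu : u ≠ 0) (hq : Irreducible q) (hqn : q.natDegree = n) :
    (C u * q * ∏ r ∈ R, (X - C r)).Separable := by
  have h1 : (C u : (ZMod p)[X]).Separable := (separable_C u).2 hu.isUnit
  have h2 : q.Separable := PerfectField.separable_of_irreducible hq
  have h3 : (∏ r ∈ R, (X - C r)).Separable := by
    rw [separable_prod_X_sub_C_iff']
    intro x _ y _ h
    exact h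
  have h4 : ∀ g : (ZMod p)[X], IsCoprime (C u) g := by
    intro g
    refine ⟨C u⁻¹, 0, ?_⟩
    rw [← C_mul, inv_mul_cancel₀ hu, C_1, zero_mul, add_zero]
  have h5 : IsCoprime q (∏ r ∈ R, (X - C r)) := by
    refine IsCoprime.prod_right fun r _ => ?_
    refine hq.coprime_iff_not_dvd.2 fun h6 => ?_
    have h7 := natDegree_le_of_dvd h6 (X_sub_C_ne_zero r)
    rw [natDegree_X_sub_C, hqn] at h7
    omega
  exact (h1.mul h2 (h4 q)).mul h3 ((h4 _).mul_left h5)

theorem main : S_ROOTS → S_FROBEX → S_CYCLE := by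
  intro hR hX h L _ _ _ hS p n hp hn hlead hPat
  obtain ⟨φ, σ, hσ⟩ := hX L p
  set k := AlgebraicClosure (ZMod p) with hkdef
  obtain ⟨ψ, hψ, hψσ⟩ := hR h L hS p hlead φ
  obtain ⟨u, q, R, hu, hq, hqn, hf⟩ := hPat
  have : CharP k p := charP_of_injective_algebraMap (algebraMap (ZMod p) k).injective p
  have h0 : h ≠ 0 := by
    rintro rfl
    exact hlead (by simp)
  have hsf := pat_sep p n hn u q R hu hq hqn
  rw [← hf] at hsf
  have hmapk : h.map (Int.castRingHom k) =
      (h.map (Int.castRingHom (ZMod p))).map (algebraMap (ZMod p) k) := by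
    rw [map_map]
    congr 1
  set hk := h.map (Int.castRingHom k) with hhk
  have hsep : hk.Separable := by
    rw [hmapk]
    exact hsf.map
  have hk0 : hk ≠ 0 := hsep.ne_zero
  have hnd : hk.roots.Nodup := nodup_roots hsep
  have hL0 : h.map (Int.castRingHom L) ≠ 0 := (Polynomial.map_ne_zero_iff Int.cast_injective).2 h0
  have hmem : ∀ r : L, r ∈ (h.map (Int.castRingHom L)).roots ↔ aeval r h = 0 := by
    intro r
    rw [mem_roots hL0, IsRoot.def, eval_map]
    rfl
  have hinj : ∀ r s : L, aeval r h = 0 → aeval s h = 0 → ψ r = ψ s → r = s := by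
    intro r s hr hs hrs
    rw [hψ] at hnd
    exact Multiset.inj_on_of_nodup_map hnd r ((hmem r).2 hr) s ((hmem s).2 hs) hrs
  have hev : ∀ y : k, hk.eval y = algebraMap (ZMod p) k u * aeval y q *
      ∏ r ∈ R, (y - algebraMap (ZMod p) k r) := by
    intro y
    rw [hmapk, hf, Polynomial.map_mul, Polynomial.map_mul, Polynomial.map_prod, eval_mul, eval_mul,
      eval_prod, map_C, eval_C, eval_map_algebraMap]
    congr 1
    refine Finset.prod_congr rfl fun r _ => ?_
    rw [Polynomial.map_sub, map_X, map_C, eval_sub, eval_X, eval_C]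
  have hroot : ∀ y : k, y ∈ hk.roots ↔ aeval y q = 0 ∨ ∃ r ∈ R, y = algebraMap (ZMod p) k r := by
    intro y
    have hu' : algebraMap (ZMod p) k u ≠ 0 := by
      rw [Ne, map_eq_zero]
      exact hu
    rw [mem_roots hk0, IsRoot.def, hev, mul_eq_zero, mul_eq_zero, or_iff_right hu',
      Finset.prod_eq_zero_iff]
    simp only [sub_eq_zero]
  have hsurj : ∀ y ∈ hk.roots, ∃ r : Rt h L, ψ r.1 = y := by
    intro y hy
    rw [hψ, Multiset.mem_map] at hy
    obtain ⟨r, hr, hry⟩ := hy
    exact ⟨⟨r, (hmem r).1 hr⟩, hry⟩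
  have himg : ∀ r : Rt h L, ψ r.1 ∈ hk.roots := by
    intro r
    rw [hψ]
    exact Multiset.mem_map_of_mem ψ ((hmem r.1).2 r.2)
  have hact : ∀ r : Rt h L, ψ (act h L σ r).1 = ψ r.1 ^ p := fun r => hψσ σ hσ r.1 r.2
  have hinj' : ∀ r s : Rt h L, ψ r.1 = ψ s.1 → r = s := fun r s hrs =>
    Subtype.ext (hinj r.1 s.1 r.2 s.2 hrs)
  -- the moved points
  have hmoved : ∀ r : Rt h L, act h L σ r ≠ r ↔ aeval (ψ r.1) q = 0 := by
    intro r
    constructor
    · intro hr
      rcases (hroot _).1 (himg r) with h1 | ⟨s, _, hs⟩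
      · exact h1
      · exfalso
        apply hr
        apply hinj'
        rw [hact, hs, ← map_pow, ZMod.pow_card]
    · intro hr h1
      have h2 := hact r
      rw [h1] at h2
      have h3 : ψ r.1 ∈ (⊥ : Subfield k) := (Subfield.mem_bot_iff_pow_eq_self k p).2 h2.symm
      obtain ⟨x, hx⟩ := (mem_bot_iff_intCast p k).1 h3
      have h4 : q.IsRoot (x : ZMod p) := by
        have h5 : aeval (algebraMap (ZMod p) k (x : ZMod p)) q = 0 := by
          rw [map_intCast, hx]
          exact hr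
        rw [aeval_algebraMap_apply, map_eq_zero] at h5
        exact h5
      have h6 := degree_eq_one_of_irreducible_of_root hq h4
      have h7 : q.natDegree = 1 := natDegree_eq_of_degree_eq_some h6
      omega
  have hq0 : q ≠ 0 := hq.ne_zero
  have hqsep : q.Separable := PerfectField.separable_of_irreducible hq
  have hcard : Nat.card {r // act h L σ r ≠ r} = n := by
    have e : {r // act h L σ r ≠ r} ≃ q.rootSet k := by
      refine Equiv.ofBijective (fun r => ⟨ψ r.1.1, (mem_rootSet.2 ⟨hq0, (hmoved r.1).1 r.2⟩)⟩) ⟨?_, ?_⟩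
      · intro r s hrs
        exact Subtype.ext (hinj' _ _ (congrArg Subtype.val hrs))
      · rintro ⟨y, hy⟩
        have hy' : aeval y q = 0 := (mem_rootSet.1 hy).2
        obtain ⟨r, hr⟩ := hsurj y ((hroot y).2 (Or.inl hy'))
        refine ⟨⟨r, (hmoved r).2 (by rw [hr]; exact hy')⟩, Subtype.ext hr⟩
    rw [Nat.card_congr e, Nat.card_eq_fintype_card,
      card_rootSet_eq_natDegree hqsep (IsAlgClosed.splits _), hqn]
  refine ⟨σ, ?_, hcard⟩
  have hne : Nonempty {r // act h L σ r ≠ r} := by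
    have : 0 < Nat.card {r // act h L σ r ≠ r} := by omega
    exact (Nat.card_pos_iff.1 this).1
  obtain ⟨r₀, hr₀⟩ := hne
  refine ⟨r₀, hr₀, fun y hy => ?_⟩
  obtain ⟨i, hi⟩ := conj_roots p q hq ((hmoved r₀).1 hr₀) ((hmoved y).1 hy)
  have hpow : ∀ m : ℕ, ψ ((act h L σ ^ m) r₀).1 = ψ r₀.1 ^ (p ^ m) := by
    intro m
    induction m with
    | zero => simp
    | succ m ih =>
      rw [pow_succ', Equiv.Perm.mul_apply, hact, ih, ← pow_mul, pow_succ]
  refine ⟨(i : ℤ), ?_⟩
  rw [zpow_natCast]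
  apply hinj'
  rw [hpow, hi]

end Pool.Agent.H47.PD.CYCLE

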