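import Pool.Agent.H47.PD.Stm

/-! # PD-DER -/

set_option autoImplicit false

namespace Pool.Agent.H47.PD.T.DER

open Finset

theorem sum_eq (n : ℕ) : (numDerangements n : ℝ) / n.factorial =
    ∑ k ∈ range (n + 1), (-1 : ℝ) ^ k / (k.factorial : ℝ) := by
  have h := numDerangements_sum n
  have h2 : (numDerangements n : ℝ) = ∑ k ∈ range (n + 1), (-1 : ℝ) ^ k * ((k + 1).ascFactorial (n - k) : ℕ) := by
    exact_mod_cast h
  rw [h2, sum_div]
  refine sum_congr rfl fun k hk => ?_
  have hk' : k ≤ n := by
    have := mem_range.1 hk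
    omega
  have h3 : k.factorial * (k + 1).ascFactorial (n - k) = n.factorial := by
    rw [Nat.factorial_mul_ascFactorial, Nat.add_sub_cancel' hk']
  have h4 : (n.factorial : ℝ) = k.factorial * ((k + 1).ascFactorial (n - k) : ℕ) := by
    exact_mod_cast h3.symm
  have h5 : (k.factorial : ℝ) ≠ 0 := by positivity
  have h6 : (((k + 1).ascFactorial (n - k) : ℕ) : ℝ) ≠ 0 := by
    have := Nat.ascFactorial_pos k (n - k)
    positivity
  rw [h4]
  field_simp

open Classical in
theorem main : S_DER := by
  intro X _
  have := Fintype.ofFinite X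
  have h1 : Nat.card (Equiv.Perm X) = (Nat.card X).factorial := by
    rw [Nat.card_eq_fintype_card, Nat.card_eq_fintype_card, Fintype.card_perm]
  have h2 : Nat.card {σ : Equiv.Perm X // ∃ x, σ x = x} + numDerangements (Nat.card X) =
      (Nat.card X).factorial := by
    rw [← h1, Nat.card_eq_fintype_card, Nat.card_eq_fintype_card, Nat.card_eq_fintype_card,
      ← card_derangements_eq_numDerangements X]
    have h3 := Fintype.card_subtype_compl (fun σ : Equiv.Perm X => ∃ x, σ x = x)
    have h4 : Fintype.card (derangements X) = Fintype.card {σ : Equiv.Perm X // ¬ ∃ x, σ x = x} := by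
      apply Fintype.card_congr
      refine Equiv.subtypeEquivRight fun σ => ?_
      simp [derangements]
    have h5 := Fintype.card_subtype_le (fun σ : Equiv.Perm X => ∃ x, σ x = x)
    rw [h4, h3]
    omega
  have h3 : (Nat.card {σ : Equiv.Perm X // ∃ x, σ x = x} : ℝ) =
      ((Nat.card X).factorial : ℝ) - numDerangements (Nat.card X) := by
    have : ((Nat.card {σ : Equiv.Perm X // ∃ x, σ x = x} + numDerangements (Nat.card X) : ℕ) : ℝ) =
        ((Nat.card X).factorial : ℕ) := by rw [h2]
    push_cast at this
    linarith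
  rw [h3, h1, sub_div, div_self (by positivity), sum_eq]

end Pool.Agent.H47.PD.T.DER
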