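import Pool.Agent.H47.PD.Stm

/-!
# PD-EX: the splitting field of an integral polynomial is a Galois number field
-/

set_option autoImplicit false

namespace Pool.Agent.H47.PD.EX

open Polynomial NumberField Pool.Agent.W401.Cheb

theorem transfer (f : ℚ[X]) (L : Type) [Field L] [A : Algebra ℚ L]
    (h2 : IsSplittingField ℚ L f) (B : Algebra ℚ L) :
    @FiniteDimensional ℚ L _ _ B.toModule ∧ @IsSplittingField ℚ L _ _ B f ∧ @IsGalois ℚ _ L _ B := by
  have e : A = B := Subsingleton.elim _ _
  subst e
  have h1 : FiniteDimensional ℚ L := IsSplittingField.finiteDimensional L f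
  have h4 : Normal ℚ L := Normal.of_isSplittingField f
  exact ⟨h1, h2, ⟨⟩⟩

theorem pack (h : ℤ[X]) (L : Type) [Field L] [A : Algebra ℚ L]
    (h2 : IsSplittingField ℚ L (h.map (Int.castRingHom ℚ))) :
    ∃ (L : Type) (_ : Field L) (_ : NumberField L) (_ : IsGalois ℚ L), Spl h L := by
  have c0 : CharZero L := charZero_of_injective_algebraMap (algebraMap ℚ L).injective
  obtain ⟨k1, k2, k3⟩ := transfer (h.map (Int.castRingHom ℚ)) L h2 (DivisionRing.toRatAlgebra)
  have nf : NumberField L := @NumberField.mk L _ c0 k1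
  exact ⟨L, inferInstance, nf, k3, k2⟩

theorem main : S_EX := fun h =>
  pack h (SplittingField (h.map (Int.castRingHom ℚ)))
    (IsSplittingField.splittingField (h.map (Int.castRingHom ℚ)))

end Pool.Agent.H47.PD.EX
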