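import Pool.Agent.H47.PD.Stm

set_option autoImplicit false

namespace Pool.Agent.H47.PD.FAC

open Polynomial

theorem main : S_FAC := by
  intro f hf
  have hf0 : f ≠ 0 := by
    rintro rfl
    simp at hf
  have hg0 : f.primPart ≠ 0 := primPart_ne_zero f
  have hgd : f.primPart.natDegree = f.natDegree := natDegree_primPart f
  have hgu : ¬ IsUnit f.primPart := by
    intro hu
    have := natDegree_eq_zero_of_isUnit hu
    omega
  obtain ⟨h, hirr, k, hk⟩ := WfDvdMonoid.exists_irreducible_factor hgu hg0
  have hprim : h.IsPrimitive := isPrimitive_of_dvd f.isPrimitive_primPart ⟨k, hk⟩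
  refine ⟨h, C f.content * k, ?_, ?_, ?_⟩
  · rw [mul_left_comm, ← hk]
    exact f.eq_C_content_mul_primPart
  · by_contra hc
    have h0 : h.natDegree = 0 := by omega
    rw [natDegree_eq_zero] at h0
    obtain ⟨c, rfl⟩ := h0
    apply hirr.not_isUnit
    exact isUnit_C.2 (hprim c dvd_rfl)
  · exact (IsPrimitive.Int.irreducible_iff_irreducible_map_cast hprim).1 hirr

end Pool.Agent.H47.PD.FAC
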