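import Pool.Agent.H47.PD.Stm

/-! PD-FIX -/

set_option autoImplicit false

open Polynomial NumberField

namespace Pool.Agent.H47.PD.FIX

/-- Bezout identity over the integers -/
theorem bezout (h : ℤ[X]) (hirr : Irreducible (h.map (Int.castRingHom ℚ))) :
    ∃ (A B : ℤ[X]) (c : ℤ), c ≠ 0 ∧ A * h + B * derivative h = C c := by
  have hsep : (h.map (Int.castRingHom ℚ)).Separable := hirr.separable
  obtain ⟨a, b, hab⟩ := hsep
  obtain ⟨u, hu0, hu⟩ := IsLocalization.integerNormalization_spec (nonZeroDivisors ℤ) a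
  obtain ⟨v, hv0, hv⟩ := IsLocalization.integerNormalization_spec (nonZeroDivisors ℤ) b
  set A := IsLocalization.integerNormalization (nonZeroDivisors ℤ) a
  set B := IsLocalization.integerNormalization (nonZeroDivisors ℤ) b
  have e2 : algebraMap ℤ ℚ = Int.castRingHom ℚ := rfl
  rw [e2] at hu hv
  refine ⟨C v * A, C u * B, u * v, ?_, ?_⟩
  · exact mul_ne_zero (nonZeroDivisors.ne_zero hu0) (nonZeroDivisors.ne_zero hv0)
  · apply Polynomial.map_injective (Int.castRingHom ℚ) Int.cast_injective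
    rw [derivative_map] at hab
    have e4 : ∀ w : ℤ, (Int.castRingHom ℚ) w = (w : ℚ) := fun w => rfl
    simp only [Polynomial.map_add, Polynomial.map_mul, Polynomial.map_C, hu, hv, e4]
    have e3 : ∀ (w : ℤ) (q : ℚ[X]), w • q = C (w : ℚ) * q := by
      intro w q
      rw [← smul_eq_C_mul]
      ext n
      simp
    rw [e3, e3]
    simp only [Int.cast_mul, C_mul]
    linear_combination (C (u : ℚ) * C (v : ℚ)) * hab

theorem main (hR : S_ROOTS) : S_FIX := by
  intro h L _ _ _ hS hirr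
  obtain ⟨A, B, c, hc, hAB⟩ := bezout h hirr
  have h0 : h ≠ 0 := by
    rintro rfl
    rw [Polynomial.map_zero] at hirr
    exact hirr.ne_zero rfl
  refine ⟨h.leadingCoeff.natAbs * c.natAbs, Nat.mul_pos (Int.natAbs_pos.2 (leadingCoeff_ne_zero.2 h0))
    (Int.natAbs_pos.2 hc), ?_⟩
  intro p hp hpD φ σ hσ
  have hp1 : ¬ (p : ℤ) ∣ h.leadingCoeff := by
    intro h1
    exact hpD ((Int.natCast_dvd.1 h1).mul_right _)
  have hp2 : ¬ (p : ℤ) ∣ c := by
    intro h1
    exact hpD ((Int.natCast_dvd.1 h1).mul_left _)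
  set k := AlgebraicClosure (ZMod p)
  obtain ⟨ψ, hψ, hψσ⟩ := hR h L hS p hp1 φ
  have : CharP k p := charP_of_injective_algebraMap (algebraMap (ZMod p) k).injective p
  have hcast : ∀ z : ℤ, (z : k) = 0 ↔ (p : ℤ) ∣ z := fun z => CharP.intCast_eq_zero_iff k p z
  set hk := h.map (Int.castRingHom k) with hhk
  have hsep : hk.Separable := by
    have h1 := congrArg (Polynomial.map (Int.castRingHom k)) hAB
    have e4 : (Int.castRingHom k) c = (c : k) := rfl
    simp only [Polynomial.map_add, Polynomial.map_mul, Polynomial.map_C, ← derivative_map, e4] at h1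
    have hck : (c : k) ≠ 0 := fun h2 => hp2 ((hcast c).1 h2)
    refine ⟨C (c : k)⁻¹ * A.map (Int.castRingHom k), C (c : k)⁻¹ * B.map (Int.castRingHom k), ?_⟩
    have h3 : (C (c : k)⁻¹ : k[X]) * C (c : k) = 1 := by
      rw [← C_mul, inv_mul_cancel₀ hck, C_1]
    rw [← h3, ← h1]
    ring
  have hk0 : hk ≠ 0 := hsep.ne_zero
  have hnd : hk.roots.Nodup := nodup_roots hsep
  have hL0 : h.map (Int.castRingHom L) ≠ 0 := (Polynomial.map_ne_zero_iff Int.cast_injective).2 h0
  have hmem : ∀ r : L, r ∈ (h.map (Int.castRingHom L)).roots ↔ aeval r h = 0 := by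
    intro r
    rw [mem_roots hL0, IsRoot.def, eval_map]
    rfl
  have hinj : ∀ r s : L, aeval r h = 0 → aeval s h = 0 → ψ r = ψ s → r = s := by
    intro r s hr hs hrs
    rw [hψ] at hnd
    exact Multiset.inj_on_of_nodup_map hnd r ((hmem r).2 hr) s ((hmem s).2 hs) hrs
  have hev : ∀ x : ℤ, hk.eval (x : k) = ((h.eval x : ℤ) : k) := by
    intro x
    rw [hhk, eval_intCast_map]
    rfl
  constructor
  · rintro ⟨⟨r, hr⟩, hfix⟩
    have h1 : σ r = r := congrArg Subtype.val hfix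
    have h2 := hψσ σ hσ r hr
    rw [h1] at h2
    have h3 : ψ r ∈ (⊥ : Subfield k) := (Subfield.mem_bot_iff_pow_eq_self k p).2 h2.symm
    obtain ⟨x, hx⟩ := (mem_bot_iff_intCast p k).1 h3
    refine ⟨x, ?_⟩
    rw [← hcast, ← hev, hx]
    have h4 : ψ r ∈ hk.roots := by
      rw [hψ]
      exact Multiset.mem_map_of_mem ψ ((hmem r).2 hr)
    exact (mem_roots hk0).1 h4
  · rintro ⟨x, hx⟩
    rw [← hcast, ← hev] at hx
    have h4 : (x : k) ∈ hk.roots := (mem_roots hk0).2 hx
    rw [hψ, Multiset.mem_map] at h4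
    obtain ⟨r, hr, hrx⟩ := h4
    have hr' := (hmem r).1 hr
    refine ⟨⟨r, hr'⟩, Subtype.ext ?_⟩
    show σ r = r
    have hsr : aeval (σ r) h = 0 := (act h L σ ⟨r, hr'⟩).2
    refine hinj _ _ hsr hr' ?_
    rw [hψσ σ hσ r hr', hrx]
    exact (Subfield.mem_bot_iff_pow_eq_self k p).1 ((mem_bot_iff_intCast p k).2 ⟨x, rfl⟩)

end Pool.Agent.H47.PD.FIX
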