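import Pool.Agent.H47.PD.Stm

/-!
# PD-FROBEX: existence of Frobenius elements
-/

set_option autoImplicit false

namespace Pool.Agent.H47.PD.FROBEX

open NumberField Pool.Agent.W401.Cheb

/-- Existence of a Frobenius element. -/
theorem exists_frob_aux (L : Type*) [Field L] [NumberField L] [IsGalois ℚ L] (l : ℕ)
    (hl : l.Prime) :
    ∃ (Q : Ideal (𝓞 L)) (_ : Q.IsMaximal) (_ : CharP (𝓞 L ⧸ Q) l) (_ : Finite (𝓞 L ⧸ Q)) (σ : Gal(L/ℚ)),
      ∀ x : 𝓞 L, Ideal.Quotient.mk Q (σ • x) = Ideal.Quotient.mk Q x ^ l := by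
  have : Fact l.Prime := ⟨hl⟩
  have hmax : (Ideal.span {(l : ℤ)}).IsMaximal := by
    apply PrincipalIdealRing.isMaximal_of_irreducible
    exact (Nat.prime_iff_prime_int.1 hl).irreducible
  obtain ⟨Q, hQ, hQl⟩ := Ideal.exists_maximal_ideal_liesOver_of_isIntegral (S := 𝓞 L)
    (Ideal.span {(l : ℤ)})
  have hunder : Q.under ℤ = Ideal.span {(l : ℤ)} := (hQl.over).symm
  have hmem : ((l : ℕ) : 𝓞 L) ∈ Q := by
    have h1 : (l : ℤ) ∈ Q.under ℤ := by
      rw [hunder]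
      exact Ideal.mem_span_singleton_self _
    rw [Ideal.under_def, Ideal.mem_comap] at h1
    simpa using h1
  have hchar : CharP (𝓞 L ⧸ Q) l := by
    rw [CharP.charP_iff_prime_eq_zero hl, ← map_natCast (Ideal.Quotient.mk Q),
      Ideal.Quotient.eq_zero_iff_mem]
    exact hmem
  have hQ0 : Q ≠ ⊥ := by
    rintro rfl
    rw [Ideal.mem_bot] at hmem
    exact hl.ne_zero (by exact_mod_cast hmem)
  have hfin : Finite (𝓞 L ⧸ Q) := Ring.HasFiniteQuotients.finiteQuotient hQ0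
  obtain ⟨σ, hσ⟩ := IsArithFrobAt.exists_of_isInvariant ℤ Gal(L/ℚ) Q
  refine ⟨Q, hQ, hchar, hfin, σ, fun x => ?_⟩
  have h1 := hσ x
  rw [← Ideal.Quotient.eq, map_pow] at h1
  rw [hunder] at h1
  have h2 : Nat.card (ℤ ⧸ Ideal.span {(l : ℤ)}) = l := by
    rw [Int.card_ideal_quot]
  rw [h2] at h1
  exact h1

theorem embed (k : Type) [Field k] [Finite k] (p : ℕ) [Fact p.Prime] [CharP k p] :
    Nonempty (k →+* AlgebraicClosure (ZMod p)) := by
  let _ : Algebra (ZMod p) k := ZMod.algebra k p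
  have : Module.Finite (ZMod p) k := Module.Finite.of_finite
  have : Algebra.IsAlgebraic (ZMod p) k := Algebra.IsAlgebraic.of_finite (ZMod p) k
  exact ⟨(IsAlgClosed.lift (R := ZMod p) (M := AlgebraicClosure (ZMod p)) (S := k)).toRingHom⟩

theorem main : S_FROBEX := by
  intro L _ _ _ p hp
  obtain ⟨Q, hQ, hchar, hfin, σ, hσ⟩ := exists_frob_aux L p hp.out
  let _ : Field (𝓞 L ⧸ Q) := Ideal.Quotient.field Q
  obtain ⟨ι⟩ := embed (𝓞 L ⧸ Q) p
  refine ⟨ι.comp (Ideal.Quotient.mk Q), σ, fun x => ?_⟩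
  rw [RingHom.comp_apply, RingHom.comp_apply, hσ x, map_pow]

end Pool.Agent.H47.PD.FROBEX
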