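import Pool.Agent.H47.PD.Stm

/-!
# PD-HENS: Hensel's lemma for almost all primes
-/

set_option autoImplicit false

namespace Pool.Agent.H47.PD.HENS

open Polynomial

/-- a relation `A h + B h' = c ≠ 0` over the integers -/
theorem bezout (h : ℤ[X]) (hirr : Irreducible (h.map (Int.castRingHom ℚ))) :
    ∃ (c : ℤ) (A B : ℤ[X]), c ≠ 0 ∧ A * h + B * derivative h = C c := by
  obtain ⟨A, B, hAB⟩ := hirr.separable
  obtain ⟨b₁, h1⟩ := IsLocalization.integerNormalization_map_to_map (nonZeroDivisors ℤ) A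
  obtain ⟨b₂, h2⟩ := IsLocalization.integerNormalization_map_to_map (nonZeroDivisors ℤ) B
  refine ⟨(b₁ : ℤ) * (b₂ : ℤ), C (b₂ : ℤ) * IsLocalization.integerNormalization (nonZeroDivisors ℤ) A,
    C (b₁ : ℤ) * IsLocalization.integerNormalization (nonZeroDivisors ℤ) B,
    mul_ne_zero (nonZeroDivisors.coe_ne_zero b₁) (nonZeroDivisors.coe_ne_zero b₂), ?_⟩
  apply Polynomial.map_injective (Int.castRingHom ℚ) (RingHom.injective_int _)
  have e : algebraMap ℤ ℚ = Int.castRingHom ℚ := rfl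
  rw [e] at h1 h2
  rw [Polynomial.map_add, Polynomial.map_mul, Polynomial.map_mul, Polynomial.map_mul, Polynomial.map_mul, h1, h2,
    map_C, map_C, map_C, ← derivative_map]
  have h3 : (b₁ : ℤ) • A = C ((b₁ : ℤ) : ℚ) * A := by
    rw [zsmul_eq_mul]
    simp
  have h4 : (b₂ : ℤ) • B = C ((b₂ : ℤ) : ℚ) * B := by
    rw [zsmul_eq_mul]
    simp
  rw [h3, h4]
  have h5 : (C ((Int.castRingHom ℚ) ((b₁ : ℤ) * (b₂ : ℤ))) : ℚ[X]) = C ((b₁ : ℤ) : ℚ) * C ((b₂ : ℤ) : ℚ) := by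
    rw [map_mul, C_mul]
    rfl
  rw [h5]
  have h6 : (C ((Int.castRingHom ℚ) (b₁ : ℤ)) : ℚ[X]) = C ((b₁ : ℤ) : ℚ) := rfl
  have h7 : (C ((Int.castRingHom ℚ) (b₂ : ℤ)) : ℚ[X]) = C ((b₂ : ℤ) : ℚ) := rfl
  rw [h6, h7]
  linear_combination C ((b₁ : ℤ) : ℚ) * C ((b₂ : ℤ) : ℚ) * hAB

/-- lifting -/
theorem lift (h : ℤ[X]) (p : ℕ) (hp : p.Prime) (hd : ∀ x : ℤ, (p : ℤ) ∣ h.eval x → ¬ (p : ℤ) ∣ h.derivative.eval x)
    (hx : ∃ x : ℤ, (p : ℤ) ∣ h.eval x) (m : ℕ) : ∃ x : ℤ, (p : ℤ) ^ (m + 1) ∣ h.eval x := by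
  induction m with
  | zero => simpa using hx
  | succ m ih =>
    obtain ⟨x, k, hk⟩ := ih
    have hpi : Prime (p : ℤ) := Nat.prime_iff_prime_int.1 hp
    have h1 : (p : ℤ) ∣ h.eval x := by
      rw [hk, pow_succ]
      exact Dvd.dvd.mul_right (Dvd.intro_left _ rfl) k
    have h2 := hd x h1
    have hco : IsCoprime (p : ℤ) (h.derivative.eval x) := (Prime.coprime_iff_not_dvd hpi).2 h2
    obtain ⟨a, b, hab⟩ := hco
    obtain ⟨l, hl⟩ := h.binomExpansion x ((p : ℤ) ^ (m + 1) * (-k * b))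
    refine ⟨x + (p : ℤ) ^ (m + 1) * (-k * b), ?_⟩
    rw [hl, hk]
    refine ⟨k * a + l * (p : ℤ) ^ m * (k * b) ^ 2, ?_⟩
    have e : h.derivative.eval x * b = 1 - a * p := by linarith
    calc (p : ℤ) ^ (m + 1) * k + h.derivative.eval x * ((p : ℤ) ^ (m + 1) * (-k * b)) +
          l * ((p : ℤ) ^ (m + 1) * (-k * b)) ^ 2
        = (p : ℤ) ^ (m + 1) * k - (p : ℤ) ^ (m + 1) * k * (h.derivative.eval x * b) +
          l * ((p : ℤ) ^ (m + 1) * (-k * b)) ^ 2 := by ring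
      _ = (p : ℤ) ^ (m + 1 + 1) * (k * a + l * (p : ℤ) ^ m * (k * b) ^ 2) := by
          rw [e]
          ring

theorem main : S_HENS := by
  intro h f hirr hf
  obtain ⟨c, A, B, hc, hAB⟩ := bezout h hirr
  refine ⟨c.natAbs, Int.natAbs_pos.2 hc, fun p hp hpc hx m => ?_⟩
  have hd : ∀ x : ℤ, (p : ℤ) ∣ h.eval x → ¬ (p : ℤ) ∣ h.derivative.eval x := by
    intro x h1 h2
    apply hpc
    have h3 := congrArg (fun g : ℤ[X] => g.eval x) hAB
    simp only [eval_add, eval_mul, eval_C] at h3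
    rw [← Int.natCast_dvd_natCast, Int.dvd_natAbs, ← h3]
    exact dvd_add (Dvd.dvd.mul_left h1 _) (Dvd.dvd.mul_left h2 _)
  obtain ⟨x, hx'⟩ := lift h p hp hd hx m
  have h1 : (p : ℤ) ^ m ∣ h.eval x := (pow_dvd_pow _ (Nat.le_succ m)).trans hx'
  have hp0 : (p : ℤ) ^ m ≠ 0 := pow_ne_zero _ (by exact_mod_cast hp.ne_zero)
  by_contra hcon
  push Not at hcon
  apply hf
  refine Polynomial.eq_zero_of_infinite_isRoot f ?_
  have h2 : Set.Infinite (Set.range fun t : ℕ => x + (p : ℤ) ^ m * t) := by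
    refine Set.infinite_range_of_injective fun s t hst => ?_
    have h3 : (p : ℤ) ^ m * (s : ℤ) = (p : ℤ) ^ m * t := by simpa using hst
    exact_mod_cast mul_left_cancel₀ hp0 h3
  refine h2.mono ?_
  rintro _ ⟨t, rfl⟩
  show f.eval (x + (p : ℤ) ^ m * t) = 0
  refine hcon _ ?_
  have h4 := Polynomial.sub_dvd_eval_sub (x + (p : ℤ) ^ m * t) x h
  have h5 : (p : ℤ) ^ m ∣ h.eval (x + (p : ℤ) ^ m * t) - h.eval x := by
    refine Dvd.dvd.trans ?_ h4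
    rw [add_sub_cancel_left]
    exact Dvd.intro _ rfl
  have h6 := dvd_add h5 h1
  rwa [sub_add_cancel] at h6

end Pool.Agent.H47.PD.HENS
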