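import Pool.Agent.H47.PD.Stm

/-! PD-INJ -/

set_option autoImplicit false

open Polynomial

namespace Pool.Agent.H47.PD.INJ

theorem root_iff (h : ℤ[X]) (L : Type) [Field L] [NumberField L] (h0 : h ≠ 0) (r : L) :
    r ∈ (h.map (Int.castRingHom ℚ)).rootSet L ↔ aeval r h = 0 := by
  have h1 : h.map (Int.castRingHom ℚ) ≠ 0 := (Polynomial.map_ne_zero_iff Int.cast_injective).2 h0
  rw [mem_rootSet_of_ne h1]
  have e : aeval r (h.map (algebraMap ℤ ℚ)) = aeval r h := aeval_map_algebraMap ℚ r h
  have e2 : h.map (Int.castRingHom ℚ) = h.map (algebraMap ℤ ℚ) := rfl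
  rw [e2, e]

theorem main : S_INJ := by
  intro h L _ _ _ hS
  refine ⟨fun h0 σ τ hst => ?_, fun hirr => ?_⟩
  · have h1 : (σ : L →ₐ[ℚ] L) = (τ : L →ₐ[ℚ] L) := by
      refine AlgHom.ext_of_adjoin_eq_top (IsSplittingField.adjoin_rootSet (K := ℚ) L (h.map (Int.castRingHom ℚ))) ?_
      intro r hr
      rw [root_iff h L h0] at hr
      have h2 := congrArg (fun f : Equiv.Perm (Rt h L) => (f ⟨r, hr⟩).1) hst
      exact h2
    ext x
    exact DFunLike.congr_fun h1 x
  · have h0 : h ≠ 0 := by
      rintro rfl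
      rw [Polynomial.map_zero] at hirr
      exact hirr.ne_zero rfl
    have hsep : (h.map (Int.castRingHom ℚ)).Separable := hirr.separable
    have h1 := card_rootSet_eq_natDegree (K := L) hsep (IsSplittingField.splits L (h.map (Int.castRingHom ℚ)))
    rw [Polynomial.natDegree_map_eq_of_injective Int.cast_injective] at h1
    rw [← h1, ← Nat.card_eq_fintype_card]
    exact Nat.card_congr (Equiv.subtypeEquivRight fun r => (root_iff h L h0 r).symm)

end Pool.Agent.H47.PD.INJ
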