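import Pool.Agent.H47.PD.Stm

/-!
# PD-IRC: the number of the irreducible polynomials over a prime field
-/

set_option autoImplicit false

namespace Pool.Agent.H47.PD.IRC

open Polynomial Finset

section

variable (p : ℕ) [Fact p.Prime]

/-- the monic irreducible polynomials of degree `n` -/
abbrev Irr (n : ℕ) : Type := {f : (ZMod p)[X] // f.Monic ∧ Irreducible f ∧ f.natDegree = n}

instance (n : ℕ) : Finite (Irr p n) := by
  refine Finite.of_injective (fun (f : Irr p n) (i : Fin (n + 1)) => f.1.coeff i) ?_
  intro f g hfg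
  apply Subtype.ext
  ext k
  by_cases hk : k < n + 1
  · exact congrFun hfg ⟨k, hk⟩
  · rw [coeff_eq_zero_of_natDegree_lt (by rw [f.2.2.2]; omega), coeff_eq_zero_of_natDegree_lt (by rw [g.2.2.2]; omega)]

variable (K : Type) [Field K] [Fintype K] [DecidableEq K] [Algebra (ZMod p) K]

theorem int (x : K) : IsIntegral (ZMod p) x := Algebra.IsIntegral.isIntegral x

/-- the degree divides -/
theorem deg_dvd (x : K) : (minpoly (ZMod p) x).natDegree ∣ Module.finrank (ZMod p) K := by
  have h1 := IntermediateField.adjoin.finrank (int p K x)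
  rw [← h1]
  exact ⟨_, (Module.finrank_mul_finrank (ZMod p) (IntermediateField.adjoin (ZMod p) {x}) K).symm⟩

theorem pow_eq (x : K) : x ^ p ^ (minpoly (ZMod p) x).natDegree = x := by
  classical
  have h1 := IntermediateField.adjoin.finrank (int p K x)
  have h2 : Nat.card (IntermediateField.adjoin (ZMod p) {x}) = p ^ (minpoly (ZMod p) x).natDegree := by
    rw [Module.natCard_eq_pow_finrank (K := ZMod p), Nat.card_zmod, h1]
  have : Fintype (IntermediateField.adjoin (ZMod p) {x}) := Fintype.ofFinite _
  have h3 := FiniteField.pow_card (IntermediateField.AdjoinSimple.gen (ZMod p) x)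
  rw [← Nat.card_eq_fintype_card, h2] at h3
  have h4 := congrArg (fun z : IntermediateField.adjoin (ZMod p) {x} => (z : K)) h3
  simpa using h4

/-- the number of the solutions of `x ^ (p ^ d) = x` -/
theorem card_fix (d : ℕ) (hd : 1 ≤ d) : (univ.filter fun x : K => x ^ p ^ d = x).card ≤ p ^ d := by
  have hp : 1 < p ^ d := Nat.one_lt_pow (by omega) (Fact.out : p.Prime).one_lt
  have hne : (X ^ p ^ d - X : K[X]) ≠ 0 := FiniteField.X_pow_card_sub_X_ne_zero K hp
  have hdeg : (X ^ p ^ d - X : K[X]).natDegree = p ^ d := FiniteField.X_pow_card_sub_X_natDegree_eq K hp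
  have h1 : (univ.filter fun x : K => x ^ p ^ d = x) ⊆ (X ^ p ^ d - X : K[X]).roots.toFinset := by
    intro x hx
    rw [mem_filter] at hx
    rw [Multiset.mem_toFinset, mem_roots hne, IsRoot.def, eval_sub, eval_pow, eval_X, hx.2, sub_self]
  calc _ ≤ (X ^ p ^ d - X : K[X]).roots.toFinset.card := card_le_card h1
    _ ≤ Multiset.card (X ^ p ^ d - X : K[X]).roots := Multiset.toFinset_card_le _
    _ ≤ _ := card_roots' _
    _ = p ^ d := hdeg

/-- the elements of small degree -/
theorem card_bad (n : ℕ) (hn : 1 ≤ n) (hK : Module.finrank (ZMod p) K = n) (hp : n ≤ p) :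
    2 * (univ.filter fun x : K => (minpoly (ZMod p) x).natDegree ≠ n).card ≤ p ^ n := by
  have hp2 := (Fact.out : p.Prime).two_le
  have h1 : (univ.filter fun x : K => (minpoly (ZMod p) x).natDegree ≠ n) ⊆
      (Icc 1 (n / 2)).biUnion fun d => univ.filter fun x : K => x ^ p ^ d = x := by
    intro x hx
    rw [mem_filter] at hx
    have h2 := deg_dvd p K x
    rw [hK] at h2
    have h3 := minpoly.natDegree_pos (int p K x)
    rw [mem_biUnion]
    refine ⟨(minpoly (ZMod p) x).natDegree, ?_, ?_⟩
    · rw [mem_Icc]
      refine ⟨h3, ?_⟩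
      obtain ⟨k, hk⟩ := h2
      have hk2 : 2 ≤ k := by
        rcases k with _ | _ | k
        · omega
        · exact absurd (by rw [hk]; ring) hx.2
        · omega
      rw [Nat.le_div_iff_mul_le two_pos]
      calc _ ≤ (minpoly (ZMod p) x).natDegree * k := Nat.mul_le_mul_left _ hk2
        _ = n := hk.symm
    · rw [mem_filter]
      exact ⟨mem_univ _, pow_eq p K x⟩
  have h2 : (univ.filter fun x : K => (minpoly (ZMod p) x).natDegree ≠ n).card ≤ (n / 2) * p ^ (n / 2) := by
    refine (card_le_card h1).trans (card_biUnion_le.trans ?_)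
    calc ∑ d ∈ Icc 1 (n / 2), (univ.filter fun x : K => x ^ p ^ d = x).card
        ≤ ∑ d ∈ Icc 1 (n / 2), p ^ (n / 2) := by
          refine sum_le_sum fun d hd => ?_
          rw [mem_Icc] at hd
          exact (card_fix p K d hd.1).trans (Nat.pow_le_pow_right (by omega) hd.2)
      _ = (n / 2) * p ^ (n / 2) := by rw [sum_const, Nat.card_Icc, smul_eq_mul, Nat.add_sub_cancel]
  rcases Nat.lt_or_ge n 2 with h | h
  · have : n / 2 = 0 := by omega
    rw [this] at h2
    omega
  · calc 2 * (univ.filter fun x : K => (minpoly (ZMod p) x).natDegree ≠ n).card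
        ≤ 2 * ((n / 2) * p ^ (n / 2)) := by omega
      _ = (2 * (n / 2)) * p ^ (n / 2) := by ring
      _ ≤ p * p ^ (n / 2) := Nat.mul_le_mul_right _ (by omega)
      _ = p ^ (n / 2 + 1) := by ring
      _ ≤ p ^ n := Nat.pow_le_pow_right (by omega) (by omega)

/-- the elements of degree `n` -/
theorem card_good (n : ℕ) :
    (univ.filter fun x : K => (minpoly (ZMod p) x).natDegree = n).card ≤ n * Nat.card (Irr p n) := by
  classical
  have h1 := card_le_mul_card_image (f := fun x : K => minpoly (ZMod p) x)
    (univ.filter fun x : K => (minpoly (ZMod p) x).natDegree = n) n (by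
      intro f hf
      rw [mem_image] at hf
      obtain ⟨x, hx, rfl⟩ := hf
      rw [mem_filter] at hx
      have hne : (minpoly (ZMod p) x).map (algebraMap (ZMod p) K) ≠ 0 :=
        (Polynomial.map_ne_zero_iff (algebraMap (ZMod p) K).injective).2 (minpoly.ne_zero (int p K x))
      have h2 : ((univ.filter fun x : K => (minpoly (ZMod p) x).natDegree = n).filter
          fun y => minpoly (ZMod p) y = minpoly (ZMod p) x) ⊆
          ((minpoly (ZMod p) x).map (algebraMap (ZMod p) K)).roots.toFinset := by
        intro y hy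
        rw [mem_filter] at hy
        rw [Multiset.mem_toFinset, mem_roots hne, IsRoot.def, eval_map_algebraMap, ← hy.2, minpoly.aeval]
      calc _ ≤ _ := card_le_card h2
        _ ≤ Multiset.card _ := Multiset.toFinset_card_le _
        _ ≤ _ := card_roots' _
        _ ≤ _ := natDegree_map_le
        _ = n := hx.2)
  refine h1.trans (Nat.mul_le_mul_left _ ?_)
  have h3 : (image (fun x : K => minpoly (ZMod p) x)
      (univ.filter fun x : K => (minpoly (ZMod p) x).natDegree = n)).card =
      Nat.card {f // f ∈ image (fun x : K => minpoly (ZMod p) x)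
        (univ.filter fun x : K => (minpoly (ZMod p) x).natDegree = n)} := by
    rw [Nat.card_eq_fintype_card, Fintype.card_coe]
  rw [h3]
  refine Nat.card_le_card_of_injective (fun f => (⟨f.1, ?_⟩ : Irr p n)) ?_
  · obtain ⟨x, hx, h⟩ := mem_image.1 f.2
    rw [mem_filter] at hx
    rw [← h]
    exact ⟨minpoly.monic (int p K x), minpoly.irreducible (int p K x), hx.2⟩
  · intro f g h
    exact Subtype.ext (congrArg (fun z : Irr p n => z.1) h)

end

theorem main : S_IRC := by
  classical
  intro n hn
  refine ⟨n, fun p hp hle => ?_⟩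
  have : Fintype (GaloisField p n) := Fintype.ofFinite _
  have h1 := card_bad p (GaloisField p n) n hn (GaloisField.finrank p (by omega)) hle
  have h2 := card_good p (GaloisField p n) n
  have h3 := Finset.card_filter_add_card_filter_not (s := (univ : Finset (GaloisField p n)))
    (fun x => (minpoly (ZMod p) x).natDegree = n)
  have h4 : (univ : Finset (GaloisField p n)).card = p ^ n := by
    rw [Finset.card_univ, ← Nat.card_eq_fintype_card, GaloisField.card p n (by omega)]
  rw [h4] at h3
  have h5 : 2 * n * Nat.card (Irr p n) = 2 * (n * Nat.card (Irr p n)) := by ring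
  show p ^ n ≤ 2 * n * Nat.card (Irr p n)
  rw [h5]
  simp only [ne_eq] at h1
  omega

end Pool.Agent.H47.PD.IRC
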