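import Pool.Agent.H47.PD.Stm

/-! # PD-IRR -/

set_option autoImplicit false

namespace Pool.Agent.H47.PD.T.IRR

open Polynomial

theorem unit_of {p : ℕ} [Fact p.Prime] {a g : ℤ[X]} (hg : g.IsPrimitive) (had : a ∣ g)
    (hlc : ¬ (p : ℤ) ∣ a.leadingCoeff) (hu : IsUnit (a.map (Int.castRingHom (ZMod p)))) : IsUnit a := by
  have h1 : (Int.castRingHom (ZMod p)) a.leadingCoeff ≠ 0 := by
    intro h
    apply hlc
    exact (ZMod.intCast_zmod_eq_zero_iff_dvd _ _).1 (by simpa using h)
  have h2 := natDegree_map_of_leadingCoeff_ne_zero (Int.castRingHom (ZMod p)) h1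
  have h3 : a.natDegree = 0 := by
    rw [← h2]
    exact natDegree_eq_zero_of_isUnit hu
  obtain ⟨c, rfl⟩ := natDegree_eq_zero.1 h3
  exact isUnit_C.2 (hg c had)

theorem main : S_IRR := by
  intro h p _ hlc hirr
  have hne : h ≠ 0 := by
    rintro rfl
    simp at hirr
  have hcp : h = C h.content * h.primPart := h.eq_C_content_mul_primPart
  have hg : h.primPart.IsPrimitive := h.isPrimitive_primPart
  have hlch : h.leadingCoeff = h.content * h.primPart.leadingCoeff := by
    conv_lhs => rw [hcp]
    rw [leadingCoeff_mul, leadingCoeff_C]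
  have hlcg : ¬ (p : ℤ) ∣ h.primPart.leadingCoeff := by
    intro hd
    apply hlc
    rw [hlch]
    exact hd.mul_left _
  have hcont : ¬ (p : ℤ) ∣ h.content := by
    intro hd
    apply hlc
    rw [hlch]
    exact hd.mul_right _
  have hu : IsUnit (C ((Int.castRingHom (ZMod p)) h.content)) := by
    refine isUnit_C.2 (IsUnit.mk0 _ ?_)
    intro h0
    apply hcont
    exact (ZMod.intCast_zmod_eq_zero_iff_dvd _ _).1 (by simpa using h0)
  have hmap : h.map (Int.castRingHom (ZMod p)) = C ((Int.castRingHom (ZMod p)) h.content) *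
      h.primPart.map (Int.castRingHom (ZMod p)) := by
    conv_lhs => rw [hcp]
    rw [Polynomial.map_mul, map_C]
  have hgirr : Irreducible (h.primPart.map (Int.castRingHom (ZMod p))) := by
    rw [hmap, irreducible_isUnit_mul hu] at hirr
    exact hirr
  have hgZ : Irreducible h.primPart := by
    refine ⟨fun hgu => hgirr.not_isUnit (hgu.map (mapRingHom (Int.castRingHom (ZMod p)))), ?_⟩
    intro a b hab
    have hm : h.primPart.map (Int.castRingHom (ZMod p)) =
        a.map (Int.castRingHom (ZMod p)) * b.map (Int.castRingHom (ZMod p)) := by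
      rw [hab, Polynomial.map_mul]
    have hla : ¬ (p : ℤ) ∣ a.leadingCoeff := by
      intro hd
      apply hlcg
      rw [hab, leadingCoeff_mul]
      exact hd.mul_right _
    have hlb : ¬ (p : ℤ) ∣ b.leadingCoeff := by
      intro hd
      apply hlcg
      rw [hab, leadingCoeff_mul]
      exact hd.mul_left _
    rcases hgirr.isUnit_or_isUnit hm with hh | hh
    · exact Or.inl (unit_of hg (Dvd.intro _ hab.symm) hla hh)
    · exact Or.inr (unit_of hg (Dvd.intro_left _ hab.symm) hlb hh)
  have h1 := (Polynomial.IsPrimitive.Int.irreducible_iff_irreducible_map_cast hg).1 hgZ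
  have hu2 : IsUnit (C ((Int.castRingHom ℚ) h.content)) := by
    refine isUnit_C.2 (IsUnit.mk0 _ ?_)
    intro h0
    apply hcont
    have : h.content = 0 := by simpa using h0
    rw [this]
    exact dvd_zero _
  have hmap2 : h.map (Int.castRingHom ℚ) = C ((Int.castRingHom ℚ) h.content) *
      h.primPart.map (Int.castRingHom ℚ) := by
    conv_lhs => rw [hcp]
    rw [Polynomial.map_mul, map_C]
  rw [hmap2, irreducible_isUnit_mul hu2]
  exact h1

end Pool.Agent.H47.PD.T.IRR
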