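import Pool.Agent.H47.PD.Stm

/-! # PD-PAT (helper75) -/

set_option autoImplicit false

namespace Pool.Agent.H47.PD.PAT

open Polynomial

theorem irr_comp {F : Type} [Field F] {q : F[X]} (h : Irreducible q) : Irreducible (q.comp (-X)) := by
  have h1 : q.comp (-X) = algEquivAevalNegX (R := F) q := by
    rw [algEquivAevalNegX, algEquivOfCompEqX_apply]
    rfl
  rw [h1]
  exact (MulEquiv.irreducible_iff (algEquivAevalNegX (R := F))).2 h

theorem prodcomp {F : Type} [Field F] [DecidableEq F] (R : Finset F) :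
    (∏ r ∈ R, (X - C r : F[X])).comp (-X) = C ((-1) ^ R.card) * ∏ r ∈ R.image (fun r => -r), (X - C r) := by
  rw [Polynomial.prod_comp, Finset.prod_image (fun a _ b _ h => neg_injective h), C_pow, ← Finset.prod_const,
    ← Finset.prod_mul_distrib]
  refine Finset.prod_congr rfl fun r _ => ?_
  simp only [sub_comp, X_comp, C_comp, map_neg, map_one]
  ring

theorem main : S_PAT := by
  classical
  intro F _ n f h c hc ⟨u, q, R, hu, hq, hqn, hf⟩ hh
  have hf0 : f ≠ 0 := by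
    rw [hf]
    refine mul_ne_zero (mul_ne_zero (C_ne_zero.2 hu) hq.ne_zero) ?_
    exact Finset.prod_ne_zero_iff.2 fun r _ => X_sub_C_ne_zero r
  obtain ⟨g, hg⟩ : ∃ g, g = f.comp (-X) := ⟨_, rfl⟩
  have hg0 : g ≠ 0 := by
    rw [hg]
    exact fun h => hf0 (comp_neg_X_eq_zero_iff.1 h)
  rw [← hg] at hh
  have hlc : h.leadingCoeff ^ 2 = c * g.leadingCoeff ^ 2 := by
    have := congrArg leadingCoeff hh
    rwa [leadingCoeff_pow, leadingCoeff_mul, leadingCoeff_C, leadingCoeff_pow] at this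
  have hgl : g.leadingCoeff ≠ 0 := leadingCoeff_ne_zero.2 hg0
  obtain ⟨d, hd⟩ : ∃ d, d = h.leadingCoeff / g.leadingCoeff := ⟨_, rfl⟩
  have hd2 : d ^ 2 = c := by
    rw [hd, div_pow, hlc, mul_div_assoc, div_self (pow_ne_zero 2 hgl), mul_one]
  have hd0 : d ≠ 0 := by
    rintro rfl
    apply hc
    rw [← hd2]
    ring
  have h3 : h ^ 2 = (C d * g) ^ 2 := by
    rw [hh, mul_pow, ← C_pow, hd2]
  obtain ⟨e, he, h4⟩ : ∃ e : F, e ≠ 0 ∧ h = C e * g := by
    rcases sq_eq_sq_iff_eq_or_eq_neg.1 h3 with h4 | h4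
    · exact ⟨d, hd0, h4⟩
    · exact ⟨-d, neg_ne_zero.2 hd0, by rw [h4, map_neg, neg_mul]⟩
  refine ⟨e * u * (-1) ^ R.card, q.comp (-X), R.image (fun r => -r), ?_, irr_comp hq, ?_, ?_⟩
  · exact mul_ne_zero (mul_ne_zero he hu) (pow_ne_zero _ (neg_ne_zero.2 one_ne_zero))
  · rw [← hqn]
    exact natDegree_eq_of_degree_eq degree_comp_neg_X
  · rw [h4, hg, hf, mul_comp, mul_comp, C_comp, prodcomp, C_mul, C_mul]
    ring

end Pool.Agent.H47.PD.PAT
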