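import Pool.Agent.H47.PD.Stm

/-! # PD-ROOTS (helper61): reduction of the roots of an integral polynomial -/

set_option autoImplicit false

namespace Pool.Agent.H47.PD.ROOTS

open Matrix Polynomial NumberField Filter Topology Pool.Agent.W401.Cheb

/-- the identity of polynomials over the ring of integers -/
lemma ident {A K F : Type} [CommRing A] [Field K] [Field F] [Algebra A K]
    (hinj : Function.Injective (algebraMap A K)) (φ : A →+* F) (h : ℤ[X]) (b : ℤ)
    (hb0 : (b : F) ≠ 0) (M : Multiset K) (s : K → A)
    (hs : ∀ r ∈ M, algebraMap A K (s r) = (b : K) * r)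
    (hh : h.map (Int.castRingHom K) = C (b : K) * (M.map (X - C ·)).prod) :
    (h.map (Int.castRingHom F)).roots = M.map (fun r => φ (s r) / (b : F)) := by
  -- the identity over `A`
  have h1 : C ((b : A) ^ M.card) * h.map (Int.castRingHom A) =
      C (b : A) * (M.map (fun r => C (b : A) * X - C (s r))).prod := by
    apply Polynomial.map_injective (algebraMap A K) hinj
    rw [Polynomial.map_mul, Polynomial.map_mul, map_C, map_C, Polynomial.map_map,
      Polynomial.map_multiset_prod, Multiset.map_map, map_pow, map_intCast]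
    have e1 : (algebraMap A K).comp (Int.castRingHom A) = Int.castRingHom K :=
      RingHom.ext_int _ _
    rw [e1, hh]
    have e2 : (M.map ((Polynomial.map (algebraMap A K)) ∘ fun r => C (b : A) * X - C (s r))) =
        M.map (fun r => C (b : K) * (X - C r)) := by
      apply Multiset.map_congr rfl
      intro r hr
      show (C (b : A) * X - C (s r)).map (algebraMap A K) = _
      rw [Polynomial.map_sub, Polynomial.map_mul, map_C, map_C, map_X, hs r hr,
        map_intCast (algebraMap A K) b, C_mul]
      ring
    rw [e2, Multiset.prod_map_mul, Multiset.map_const', Multiset.prod_replicate, C_pow]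
    ring
  have h2 := congrArg (Polynomial.map φ) h1
  rw [Polynomial.map_mul, Polynomial.map_mul, map_C, map_C, Polynomial.map_map,
    Polynomial.map_multiset_prod, Multiset.map_map, map_pow, map_intCast] at h2
  have e1 : φ.comp (Int.castRingHom A) = Int.castRingHom F := RingHom.ext_int _ _
  rw [e1] at h2
  have e2 : (M.map ((Polynomial.map φ) ∘ fun r => C (b : A) * X - C (s r))) =
      M.map (fun r => C (b : F) * (X - C (φ (s r) / (b : F)))) := by
    apply Multiset.map_congr rfl
    intro r hr
    show (C (b : A) * X - C (s r)).map φ = _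
    rw [Polynomial.map_sub, Polynomial.map_mul, map_C, map_C, map_X, map_intCast φ b,
      mul_sub, ← C_mul, mul_div_cancel₀ _ hb0]
  rw [e2, Multiset.prod_map_mul, Multiset.map_const', Multiset.prod_replicate, ← C_pow,
    mul_left_comm] at h2
  have hne : C ((b : F) ^ M.card) ≠ 0 := C_ne_zero.2 (pow_ne_zero _ hb0)
  have h3 := mul_left_cancel₀ hne h2
  rw [h3, roots_C_mul _ hb0]
  have e3 : (M.map (fun r => X - C (φ (s r) / (b : F)))) =
      (M.map (fun r => φ (s r) / (b : F))).map (fun a => X - C a) := by
    rw [Multiset.map_map]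
    rfl
  rw [e3, roots_multiset_prod_X_sub_C]

theorem main : S_ROOTS := by
  intro h L _ _ _ hSpl p hp hb φ
  classical
  set b : ℤ := h.leadingCoeff with hbdef
  have hbF : ((b : ℤ) : AlgebraicClosure (ZMod p)) ≠ 0 := by
    intro h0
    exact hb ((CharP.intCast_eq_zero_iff (AlgebraicClosure (ZMod p)) p b).1 h0)
  have hb0 : b ≠ 0 := by
    rintro h0
    rw [h0] at hbF
    simp at hbF
  have hint : ∀ r : L, aeval r h = 0 → IsIntegral ℤ ((b : L) * r) := by
    intro r hr
    have := isIntegral_leadingCoeff_smul h r hr
    rwa [zsmul_eq_mul] at this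
  have hex : ∀ r : L, ∃ x : 𝓞 L, aeval r h = 0 → algebraMap (𝓞 L) L x = (b : L) * r := by
    intro r
    by_cases hr : aeval r h = 0
    · exact ⟨⟨(b : L) * r, hint r hr⟩, fun _ => rfl⟩
    · exact ⟨0, fun h' => absurd h' hr⟩
  choose s hsr using hex
  have hmap : (h.map (Int.castRingHom ℚ)).map (algebraMap ℚ L) = h.map (Int.castRingHom L) := by
    rw [Polynomial.map_map]
    congr 1
    exact RingHom.ext_int _ _
  have hsplit : (h.map (Int.castRingHom L)).Splits := by
    rw [← hmap]
    exact hSpl.splits'
  have hlead : (h.map (Int.castRingHom L)).leadingCoeff = (b : L) := by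
    rw [leadingCoeff_map_of_injective (Int.cast_injective : Function.Injective (Int.castRingHom L))]
    rfl
  have hprod := hsplit.eq_prod_roots
  rw [hlead] at hprod
  have hmem : ∀ r ∈ (h.map (Int.castRingHom L)).roots, aeval r h = 0 := by
    intro r hr
    have h1 := isRoot_of_mem_roots hr
    rw [IsRoot, eval_map] at h1
    rw [aeval_def]
    exact h1
  refine ⟨fun r => φ (s r) / (b : AlgebraicClosure (ZMod p)), ?_, ?_⟩
  · exact ident (RingOfIntegers.coe_injective) φ h b hbF _ s (fun r hr => hsr r (hmem r hr)) hprod
  · intro σ hσ r hr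
    have hσr : aeval (σ r) h = 0 := by
      have e : aeval (σ r) h = σ (aeval r h) :=
        Polynomial.aeval_algHom_apply (σ : L →+* L).toIntAlgHom r h
      rw [e, hr, map_zero]
    have h1 : s (σ r) = σ • s r := by
      apply RingOfIntegers.coe_injective
      rw [hsr _ hσr]
      have h2 : algebraMap (𝓞 L) L (σ • s r) = σ (algebraMap (𝓞 L) L (s r)) := rfl
      rw [h2, hsr r hr, map_mul, map_intCast]
    have h2 : ((b : ℤ) : AlgebraicClosure (ZMod p)) ^ p = b := by
      have := map_intCast (frobenius (AlgebraicClosure (ZMod p)) p) b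
      rwa [frobenius_def] at this
    show φ (s (σ r)) / (b : AlgebraicClosure (ZMod p)) = (φ (s r) / (b : AlgebraicClosure (ZMod p))) ^ p
    rw [h1, hσ, div_pow, h2]

end Pool.Agent.H47.PD.ROOTS
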