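import Pool.Agent.H47.PD.Stm

/-!
# Groups of permutations with cycles of the lengths `|X|`, `|X| - 1` and `2` (stub PD-SYMM)
-/

set_option autoImplicit false

namespace Pool.Agent.H47.PD.T.SYMM

open Equiv Equiv.Perm

variable {X : Type} [Fintype X] [DecidableEq X]

theorem card_support (σ : Perm X) : Nat.card {x // σ x ≠ x} = σ.support.card := by
  rw [Nat.card_eq_fintype_card, Fintype.card_subtype]
  congr 1

omit [Fintype X] in
theorem swap_conj (G : Subgroup (Perm X)) {g : Perm X} (hg : g ∈ G) {a b : X} (h : swap a b ∈ G) :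
    swap (g a) (g b) ∈ G := by
  have h1 : swap (g a) (g b) = g * swap a b * g⁻¹ := by
    rw [eq_mul_inv_iff_mul_eq]
    exact (mul_swap_eq_swap_mul g a b).symm
  rw [h1]
  exact G.mul_mem (G.mul_mem hg h) (G.inv_mem hg)

theorem top_of_all (G : Subgroup (Perm X)) (h : ∀ x y : X, x ≠ y → swap x y ∈ G) : G = ⊤ := by
  rw [eq_top_iff, ← closure_isSwap, Subgroup.closure_le]
  rintro _ ⟨x, y, hxy, rfl⟩
  exact h x y hxy

theorem core (G : Subgroup (Perm X)) (hX : 2 ≤ Fintype.card X)
    (h : ∀ n : ℕ, 2 ≤ n → (n = Fintype.card X ∨ n + 1 = Fintype.card X ∨ n = 2) →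
      ∃ σ ∈ G, σ.IsCycle ∧ σ.support.card = n) : G = ⊤ := by
  obtain ⟨τ, hτ, -, hτ2⟩ := h 2 le_rfl (Or.inr (Or.inr rfl))
  obtain ⟨a, b, hab, rfl⟩ := card_support_eq_two.1 hτ2
  obtain ⟨σ, hσ, hσc, hσn⟩ := h _ hX (Or.inl rfl)
  have hσu : σ.support = Finset.univ := by
    rw [← Finset.card_eq_iff_eq_univ]
    exact hσn
  have htrans : ∀ x y : X, ∃ g ∈ G, g x = y := by
    intro x y
    have hx : σ x ≠ x := mem_support.1 (by rw [hσu]; exact Finset.mem_univ x)
    have hy : σ y ≠ y := mem_support.1 (by rw [hσu]; exact Finset.mem_univ y)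
    obtain ⟨i, hi⟩ := hσc.sameCycle hx hy
    exact ⟨σ ^ i, G.zpow_mem hσ i, hi⟩
  apply top_of_all
  by_cases h2 : Fintype.card X = 2
  · -- two points
    have hall : ∀ z : X, z = a ∨ z = b := by
      intro z
      have h3 : ({a, b} : Finset X) = Finset.univ := by
        rw [← Finset.card_eq_iff_eq_univ, Finset.card_pair hab, h2]
      have h4 := Finset.mem_univ z
      rw [← h3] at h4
      simpa using h4
    intro x y hxy
    rcases hall x with rfl | rfl <;> rcases hall y with rfl | rfl
    · exact absurd rfl hxy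
    · exact hτ
    · rw [swap_comm]
      exact hτ
    · exact absurd rfl hxy
  · obtain ⟨ρ, hρ, hρc, hρn⟩ := h (Fintype.card X - 1) (by omega) (Or.inr (Or.inl (by omega)))
    -- the fixed point
    have h3 : (ρ.supportᶜ).card = 1 := by
      rw [Finset.card_compl, hρn]
      omega
    obtain ⟨p, hp⟩ := Finset.card_eq_one.1 h3
    have hfix : ∀ z, ρ z = z ↔ z = p := by
      intro z
      have : z ∈ ρ.supportᶜ ↔ z ∈ ({p} : Finset X) := by rw [hp]
      rw [Finset.mem_compl, mem_support, not_not, Finset.mem_singleton] at this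
      exact this
    have hpow : ∀ i : ℤ, (ρ ^ i) p = p := by
      intro i
      exact zpow_apply_eq_self_of_apply_eq_self ((hfix p).2 rfl) i
    obtain ⟨g, hg, hga⟩ := htrans a p
    have h4 : swap p (g b) ∈ G := by
      have := swap_conj G hg hτ
      rwa [hga] at this
    have h5 : g b ≠ p := by
      intro h6
      rw [← hga] at h6
      exact hab (g.injective h6).symm
    have h6 : ∀ z, z ≠ p → swap p z ∈ G := by
      intro z hz
      obtain ⟨i, hi⟩ := hρc.sameCycle (fun h7 => h5 ((hfix _).1 h7)) (fun h7 => hz ((hfix z).1 h7))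
      have := swap_conj G (G.zpow_mem hρ i) h4
      rwa [hpow, hi] at this
    intro x y hxy
    by_cases hx : x = p
    · subst hx
      exact h6 y hxy.symm
    · by_cases hy : y = p
      · subst hy
        rw [swap_comm]
        exact h6 x hx
      · have h7 := swap_conj G (h6 x hx) (h6 y hy)
        rwa [swap_apply_left, swap_apply_of_ne_of_ne hy hxy.symm] at h7

theorem main : Pool.Agent.H47.PD.S_SYMM := by
  intro X _ G hX h
  classical
  have : Fintype X := Fintype.ofFinite X
  rw [Nat.card_eq_fintype_card] at hX h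
  refine core G hX fun n hn hn' => ?_
  obtain ⟨σ, hσ, hc, hn2⟩ := h n hn hn'
  exact ⟨σ, hσ, hc, by rw [← card_support, hn2]⟩

end Pool.Agent.H47.PD.T.SYMM
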