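import Pool.Agent.H47.PD.Stm

set_option autoImplicit false

namespace Pool.Agent.H47.PD.TRANS

open Polynomial NumberField

theorem main : S_TRANS := by
  intro h L _ _ _ hirr r s
  have hmin : ∀ r : Rt h L, h.map (Int.castRingHom ℚ) * C (h.map (Int.castRingHom ℚ)).leadingCoeff⁻¹ =
      minpoly ℚ r.1 := by
    intro r
    refine minpoly.eq_of_irreducible hirr ?_
    have h1 : aeval r.1 (h.map (algebraMap ℤ ℚ)) = aeval r.1 h := aeval_map_algebraMap ℚ r.1 h
    exact h1.trans r.2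
  have h2 : IsConjRoot ℚ r.1 s.1 := (hmin r).symm.trans (hmin s)
  obtain ⟨σ, hσ⟩ := (isConjRoot_iff_exists_algEquiv).1 h2
  exact ⟨σ⁻¹, Subtype.ext (by change σ⁻¹ r.1 = s.1; rw [← hσ]; exact σ.symm_apply_apply s.1)⟩

end Pool.Agent.H47.PD.TRANS
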