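import Pool.Agent.H47.PD.Stm

/-! # PD-TYP (helper62) -/

set_option autoImplicit false

namespace Pool.Agent.H47.PD.TYP

open Polynomial Pool.Agent.H47.PD

section
variable {p : ℕ} [Fact p.Prime]

/-- the product -/
noncomputable def F (q : (ZMod p)[X]) (R : Finset (ZMod p)) : (ZMod p)[X] := q * ∏ r ∈ R, (X - C r)

theorem F_monic {q : (ZMod p)[X]} (hq : q.Monic) (R : Finset (ZMod p)) : (F q R).Monic :=
  hq.mul (monic_prod_of_monic _ _ fun r _ => monic_X_sub_C r)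

theorem F_deg {q : (ZMod p)[X]} (hq : q.Monic) (R : Finset (ZMod p)) :
    (F q R).natDegree = q.natDegree + R.card := by
  unfold F
  rw [hq.natDegree_mul (monic_prod_of_monic _ _ fun r _ => monic_X_sub_C r),
    natDegree_prod_of_monic _ _ fun r _ => monic_X_sub_C r]
  simp

theorem no_root {q : (ZMod p)[X]} (hq : Irreducible q) (h2 : 2 ≤ q.natDegree) (r : ZMod p) :
    q.eval r ≠ 0 := by
  intro h
  have h1 := degree_eq_one_of_irreducible_of_root hq (x := r) h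
  have h3 : q.natDegree = 1 := natDegree_eq_of_degree_eq_some (n := 1) (by rw [h1]; rfl)
  omega

theorem F_root {q : (ZMod p)[X]} (hq : Irreducible q) (h2 : 2 ≤ q.natDegree)
    (R : Finset (ZMod p)) (r : ZMod p) : (F q R).eval r = 0 ↔ r ∈ R := by
  unfold F
  rw [eval_mul, mul_eq_zero, or_iff_right (no_root hq h2 r), eval_prod, Finset.prod_eq_zero_iff]
  constructor
  · rintro ⟨s, hs, h⟩
    rw [eval_sub, eval_X, eval_C, sub_eq_zero] at h
    rwa [h]
  · intro h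
    exact ⟨r, h, by rw [eval_sub, eval_X, eval_C, sub_self]⟩

theorem F_inj {q q' : (ZMod p)[X]} (hq : Irreducible q) (h2 : 2 ≤ q.natDegree)
    (hq' : Irreducible q') (h2' : 2 ≤ q'.natDegree) {R R' : Finset (ZMod p)}
    (h : F q R = F q' R') : q = q' ∧ R = R' := by
  have hR : R = R' := by
    ext r
    rw [← F_root hq h2 R r, ← F_root hq' h2' R' r, h]
  subst hR
  refine ⟨?_, rfl⟩
  have hne : (∏ r ∈ R, (X - C r) : (ZMod p)[X]) ≠ 0 :=
    (monic_prod_of_monic _ _ fun r _ => monic_X_sub_C r).ne_zero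
  exact mul_right_cancel₀ hne h

theorem as_sum {f : (ZMod p)[X]} (hf : f.Monic) {g : ℕ} (hg : f.natDegree = g) :
    (X ^ g + ∑ j : Fin g, C (f.coeff j) * X ^ (j : ℕ) : (ZMod p)[X]) = f := by
  subst hg
  conv_rhs => rw [hf.as_sum]
  rw [Finset.sum_range]

end

theorem main : S_IRC → S_TYP := by
  classical
  intro hI g n hn hng
  obtain ⟨p₁, h1⟩ := hI n (by omega)
  obtain ⟨k, hk⟩ : ∃ k, k = g - n := ⟨_, rfl⟩
  have hn0 : (0:ℝ) < n := by exact_mod_cast (by omega : 0 < n)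
  refine ⟨1 / (2 * n) * ((1 / 2) ^ k / k.factorial), by positivity, max p₁ (2 * g), ?_⟩
  intro p _ hp
  have hp1 : p₁ ≤ p := (le_max_left _ _).trans hp
  have hp2 : 2 * g ≤ p := (le_max_right _ _).trans hp
  -- the map
  have hinj : Nat.card ({f : (ZMod p)[X] // f.Monic ∧ Irreducible f ∧ f.natDegree = n} ×
      {R : Finset (ZMod p) // R.card = k}) ≤
      Nat.card {c : Fin g → ZMod p // Pat n (X ^ g + ∑ j : Fin g, C (c j) * X ^ (j : ℕ) : (ZMod p)[X])} := by
    have hdeg : ∀ x : {f : (ZMod p)[X] // f.Monic ∧ Irreducible f ∧ f.natDegree = n} ×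
        {R : Finset (ZMod p) // R.card = k}, (F x.1.1 x.2.1).natDegree = g := by
      intro x
      rw [F_deg x.1.2.1, x.1.2.2.2, x.2.2]
      omega
    refine Nat.card_le_card_of_injective (fun x => ⟨fun j => (F x.1.1 x.2.1).coeff j, ?_⟩) ?_
    · rw [as_sum (F_monic x.1.2.1 x.2.1) (hdeg x)]
      exact ⟨1, x.1.1, x.2.1, one_ne_zero, x.1.2.2.1, x.1.2.2.2, by rw [C_1, one_mul]; rfl⟩
    · intro x y hxy
      have h2 : (fun j : Fin g => (F x.1.1 x.2.1).coeff j) =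
          fun j : Fin g => (F y.1.1 y.2.1).coeff j := congrArg Subtype.val hxy
      have h3 : F x.1.1 x.2.1 = F y.1.1 y.2.1 := by
        rw [← as_sum (F_monic x.1.2.1 x.2.1) (hdeg x), ← as_sum (F_monic y.1.2.1 y.2.1) (hdeg y)]
        congr 1
        exact Finset.sum_congr rfl fun j _ => by rw [congrFun h2 j]
      obtain ⟨h4, h5⟩ := F_inj x.1.2.2.1 (by rw [x.1.2.2.2]; exact hn) y.1.2.2.1
        (by rw [y.1.2.2.2]; exact hn) h3
      exact Prod.ext (Subtype.ext h4) (Subtype.ext h5)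
  rw [Nat.card_prod] at hinj
  have hR : Nat.card {R : Finset (ZMod p) // R.card = k} = p.choose k := by
    rw [Nat.card_eq_fintype_card, Fintype.card_finset_len, ZMod.card]
  rw [hR] at hinj
  have hI' := h1 p hp1
  obtain ⟨I, hIe⟩ : ∃ I, I = Nat.card {f : (ZMod p)[X] // f.Monic ∧ Irreducible f ∧ f.natDegree = n} :=
    ⟨_, rfl⟩
  rw [← hIe] at hinj hI'
  have h2 : (p : ℝ) ^ n ≤ 2 * n * I := by exact_mod_cast hI'
  have h3 : ((p : ℝ) / 2) ^ k / k.factorial ≤ p.choose k := by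
    have h4 : (p + 1 - k) ^ k ≤ p.descFactorial k := Nat.pow_sub_le_descFactorial p k
    rw [Nat.descFactorial_eq_factorial_mul_choose] at h4
    have h5 : ((p + 1 - k : ℕ) : ℝ) ^ k ≤ k.factorial * p.choose k := by exact_mod_cast h4
    have h6 : (p : ℝ) / 2 ≤ ((p + 1 - k : ℕ) : ℝ) := by
      have h7 : p ≤ 2 * (p + 1 - k) := by omega
      have h8 : (p : ℝ) ≤ 2 * ((p + 1 - k : ℕ) : ℝ) := by exact_mod_cast h7
      linarith
    have h9 : ((p : ℝ) / 2) ^ k ≤ ((p + 1 - k : ℕ) : ℝ) ^ k := pow_le_pow_left₀ (by positivity) h6 k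
    rw [div_le_iff₀ (by positivity)]
    linarith
  have h4 : ((I * p.choose k : ℕ) : ℝ) ≤ Nat.card {c : Fin g → ZMod p // Pat n (X ^ g + ∑ j : Fin g, C (c j) * X ^ (j : ℕ) : (ZMod p)[X])} := by
    exact_mod_cast hinj
  refine le_trans ?_ h4
  have e1 : (p : ℝ) ^ g = (p : ℝ) ^ n * (p : ℝ) ^ k := by
    rw [← pow_add]; congr 1; omega
  have e2 : 1 / (2 * (n : ℝ)) * ((1 / 2) ^ k / k.factorial) * (p : ℝ) ^ g =
      ((p : ℝ) ^ n / (2 * n)) * (((p : ℝ) / 2) ^ k / k.factorial) := by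
    rw [e1, div_pow, div_pow, one_pow]
    field_simp
  rw [e2, Nat.cast_mul]
  have h5 : (p : ℝ) ^ n / (2 * n) ≤ I := by
    rw [div_le_iff₀ (by positivity)]
    linarith
  exact mul_le_mul h5 h3 (by positivity) (Nat.cast_nonneg _)

end Pool.Agent.H47.PD.TYP
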